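import Pool.Agent.H19.QCube.Data

/-!
# Kernel-checked polynomial identities for the data
-/

set_option autoImplicit false

namespace Pool.Agent.H19.QCube

/-- The monomial `q ^ n`. -/
def mon : ℕ → Poly
  | 0 => [1]
  | n + 1 => 0 :: mon n

/-- `q³ Δ(E_i)`. -/
def colE2 (i : Fin 2) (p : Fin 8 × Fin 8) : SV (Fin 8 × Fin 8) :=
  tens (colE i p.1) (colK i p.2) ++ scal (mon 2) (tens (sone p.1) (colE i p.2))

/-- `q³ Δ(F_i)`. -/
def colF2 (i : Fin 2) (p : Fin 8 × Fin 8) : SV (Fin 8 × Fin 8) :=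
  scal (mon 2) (tens (colF i p.1) (sone p.2)) ++ tens (colKi i p.1) (colF i p.2)

/-- `q⁴ Δ(K_i)`. -/
def colK2 (i : Fin 2) (p : Fin 8 × Fin 8) : SV (Fin 8 × Fin 8) :=
  tens (colK i p.1) (colK i p.2)

/-- `q⁵ Δ³(E_i)`. -/
def colE3 (i : Fin 2) (p : Fin 8 × Fin 8 × Fin 8) : SV (Fin 8 × Fin 8 × Fin 8) :=
  tens (colE i p.1) (colK2 i p.2) ++ scal (mon 2) (tens (sone p.1) (colE2 i p.2))

/-- `q⁶ Δ³(K_i)`. -/
def colK3 (i : Fin 2) (p : Fin 8 × Fin 8 × Fin 8) : SV (Fin 8 × Fin 8 × Fin 8) :=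
  tens (colK i p.1) (colK2 i p.2)

/-- The slice `t (·, ·, c)`. -/
def slice12 (c : Fin 8) : SV (Fin 8 × Fin 8 × Fin 8) → SV (Fin 8 × Fin 8)
  | [] => []
  | x :: v => if x.1.2.2 = c then ((x.1.1, x.1.2.1), x.2) :: slice12 c v else slice12 c v

/-- The slice `t (a, ·, ·)`. -/
def slice23 (a : Fin 8) : SV (Fin 8 × Fin 8 × Fin 8) → SV (Fin 8 × Fin 8)
  | [] => []
  | x :: v => if x.1.1 = a then (x.1.2, x.2) :: slice23 a v else slice23 a v

theorem check_KE : ∀ i j : Fin 2, ∀ b : Fin 8,
    eqv (scal (mon 2) (app (colK i) (colE j b)))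
      (scal (mon (if i = j then 4 else 1)) (app (colE j) (colK i b))) = true := by
  decide +kernel

theorem check_KF : ∀ i j : Fin 2, ∀ b : Fin 8,
    eqv (scal (mon 2) (app (colK i) (colF j b)))
      (scal (mon (if i = j then 0 else 3)) (app (colF j) (colK i b))) = true := by
  decide +kernel

theorem check_EF : ∀ i j : Fin 2, ∀ b : Fin 8,
    eqv (scal [-1, 0, 1] (app (colE i) (colF j b)))
      (scal [-1, 0, 1] (app (colF j) (colE i b)) ++
        (if i = j then scal [0, 1] (colK i b) ++ scal [0, -1] (colKi i b) else [])) = true := by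
  decide +kernel

theorem check_serreE : ∀ i j : Fin 2, i ≠ j → ∀ b : Fin 8,
    eqv (scal [0, 1] (app (colE i) (app (colE i) (colE j b))) ++
        scal [0, 1] (app (colE j) (app (colE i) (colE i b))))
      (scal [1, 0, 1] (app (colE i) (app (colE j) (colE i b)))) = true := by
  decide +kernel

theorem check_serreF : ∀ i j : Fin 2, i ≠ j → ∀ b : Fin 8,
    eqv (scal [0, 1] (app (colF i) (app (colF i) (colF j b))) ++
        scal [0, 1] (app (colF j) (app (colF i) (colF i b))))
      (scal [1, 0, 1] (app (colF i) (app (colF j) (colF i b)))) = true := by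
  decide +kernel

theorem check_RE : ∀ i : Fin 2, ∀ a b : Fin 8,
    eqv (app colR (colE2 i (a, b))) (app (colE2 i) (colR (a, b))) = true := by
  decide +kernel

theorem check_RF : ∀ i : Fin 2, ∀ a b : Fin 8,
    eqv (app colR (colF2 i (a, b))) (app (colF2 i) (colR (a, b))) = true := by
  decide +kernel

theorem check_RK : ∀ i : Fin 2, ∀ a b : Fin 8,
    eqv (app colR (colK2 i (a, b))) (app (colK2 i) (colR (a, b))) = true := by
  decide +kernel

theorem check_Rnorm : ∀ b : Fin 8,
    eqv (colR (0, b)) [((b, 0), mon (6 + wtD b 0 + wtD b 1).toNat)] = true := by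
  decide +kernel

theorem check_tS_E : ∀ i : Fin 2, isZ (app (colE3 i) tS) = true := by
  decide +kernel

theorem check_tA_E : ∀ i : Fin 2, isZ (app (colE3 i) tA) = true := by
  decide +kernel

theorem check_tS_K : ∀ i : Fin 2, eqv (app (colK3 i) tS) (scal (mon 6) tS) = true := by
  decide +kernel

theorem check_tA_K : ∀ i : Fin 2, eqv (app (colK3 i) tA) (scal (mon 6) tA) = true := by
  decide +kernel

theorem check_tS_12 : ∀ c : Fin 8,
    eqv (app colR (slice12 c tS)) (scal (mon 3) (slice12 c tS)) = true := by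
  decide +kernel

theorem check_tS_23 : ∀ a : Fin 8,
    eqv (app colR (slice23 a tS)) (scal (mon 3) (slice23 a tS)) = true := by
  decide +kernel

theorem check_tA_12 : ∀ c : Fin 8,
    eqv (app colR (slice12 c tA)) (scal [0, 0, 0, -1] (slice12 c tA)) = true := by
  decide +kernel

theorem check_tA_23 : ∀ a : Fin 8,
    eqv (app colR (slice23 a tA)) (scal [0, 0, 0, -1] (slice23 a tA)) = true := by
  decide +kernel

theorem check_tS_ne : coef tS (7, 3, 0) = [1, 1, 1] := by
  decide +kernel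

theorem check_tA_ne : coef tA (7, 4, 0) = [1, -1, 1] := by
  decide +kernel

end Pool.Agent.H19.QCube
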