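import Mathlib

/-!
# Quantum and classical cubes of simple modules, for `g = sl₃`

Modules are given by matrices with respect to a basis of weight vectors indexed by a finite
type `N`; thus a module is `N → ℂ`, its tensor square is `N × N → ℂ`, its tensor cube is
`N × N × N → ℂ`, and tensor products of operators are Kronecker products.
-/

set_option autoImplicit false

namespace Pool.Agent.H19.QCube

open Matrix Kronecker

/-- The Cartan matrix `(a_ij)` of `sl₃`. -/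
def cartan (i j : Fin 2) : ℤ := if i = j then 2 else -1

/-- The invariant form on the weight lattice of `sl₃`, normalised by `(α_i, α_i) = 2`; weights
are given by their values on the two simple coroots. -/
noncomputable def form (lam mu : Fin 2 → ℤ) : ℝ :=
  ((2 * lam 0 * mu 0 + lam 0 * mu 1 + lam 1 * mu 0 + 2 * lam 1 * mu 1 : ℤ) : ℝ) / 3

/-- A finite-dimensional type 1 module over the quantized enveloping algebra `U_q(sl₃)`
(`q` real), in a basis of weight vectors indexed by `N`: matrices `E i`, `F i`, `K i`, `Kinv i`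
(`i = 0, 1`) satisfying the defining relations of `U_q(sl₃)`, the basis vector `b` having
weight `wt b`, i.e. `K i` acts on it by `q ^ (wt b i)`. -/
structure QModule (q : ℝ) (N : Type) [Fintype N] [DecidableEq N] where
  /-- the weights of the basis vectors -/
  wt : N → Fin 2 → ℤ
  /-- the action of `E_i` -/
  E : Fin 2 → Matrix N N ℂ
  /-- the action of `F_i` -/
  F : Fin 2 → Matrix N N ℂ
  /-- the action of `K_i` -/
  K : Fin 2 → Matrix N N ℂ
  /-- the action of `K_i⁻¹` -/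
  Kinv : Fin 2 → Matrix N N ℂ
  /-- the basis consists of weight vectors -/
  K_eq : ∀ i, K i = diagonal fun b => (((q ^ wt b i : ℝ)) : ℂ)
  /-- the basis consists of weight vectors -/
  Kinv_eq : ∀ i, Kinv i = diagonal fun b => (((q ^ (-wt b i) : ℝ)) : ℂ)
  /-- `K_i E_j = q^{a_ij} E_j K_i` -/
  KE : ∀ i j, K i * E j = ((q ^ cartan i j : ℝ) : ℂ) • (E j * K i)
  /-- `K_i F_j = q^{-a_ij} F_j K_i` -/
  KF : ∀ i j, K i * F j = ((q ^ (-cartan i j) : ℝ) : ℂ) • (F j * K i)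
  /-- `E_i F_j - F_j E_i = δ_ij (K_i - K_i⁻¹) / (q - q⁻¹)` -/
  EF : ∀ i j, E i * F j - F j * E i =
    if i = j then (((q - q⁻¹)⁻¹ : ℝ) : ℂ) • (K i - Kinv i) else 0
  /-- quantum Serre relation for the `E_i` -/
  serreE : ∀ i j, i ≠ j →
    E i * E i * E j - ((q + q⁻¹ : ℝ) : ℂ) • (E i * E j * E i) + E j * E i * E i = 0
  /-- quantum Serre relation for the `F_i` -/
  serreF : ∀ i j, i ≠ j →
    F i * F i * F j - ((q + q⁻¹ : ℝ) : ℂ) • (F i * F j * F i) + F j * F i * F i = 0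

namespace QModule

variable {q : ℝ} {N : Type} [Fintype N] [DecidableEq N] (V : QModule q N)

/-- `v` is a highest weight vector of weight `lam` (possibly zero). -/
def IsHighest (lam : Fin 2 → ℤ) (v : N → ℂ) : Prop :=
  ∀ i, V.E i *ᵥ v = 0 ∧ V.K i *ᵥ v = ((q ^ lam i : ℝ) : ℂ) • v

/-- `V` is the simple module `V(lam)` of highest weight `lam`: it is simple and contains a
nonzero highest weight vector of weight `lam`. -/
def IsSimpleHW (lam : Fin 2 → ℤ) : Prop :=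
  (∃ v : N → ℂ, v ≠ 0 ∧ V.IsHighest lam v) ∧
  ∀ U : Submodule ℂ (N → ℂ),
    (∀ i, ∀ u ∈ U, V.E i *ᵥ u ∈ U ∧ V.F i *ᵥ u ∈ U ∧ V.K i *ᵥ u ∈ U ∧ V.Kinv i *ᵥ u ∈ U) →
    U = ⊥ ∨ U = ⊤

/-- Action of `E_i` on `V ⊗ V`, for the coproduct `Δ(E_i) = E_i ⊗ K_i + 1 ⊗ E_i`. -/
def E2 (i : Fin 2) : Matrix (N × N) (N × N) ℂ := V.E i ⊗ₖ V.K i + 1 ⊗ₖ V.E i

/-- Action of `F_i` on `V ⊗ V`, for the coproduct `Δ(F_i) = F_i ⊗ 1 + K_i⁻¹ ⊗ F_i`. -/
def F2 (i : Fin 2) : Matrix (N × N) (N × N) ℂ := V.F i ⊗ₖ 1 + V.Kinv i ⊗ₖ V.F i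

/-- Action of `K_i` on `V ⊗ V`. -/
def K2 (i : Fin 2) : Matrix (N × N) (N × N) ℂ := V.K i ⊗ₖ V.K i

/-- Action of `E_i` on `V ⊗ V ⊗ V`. -/
def E3 (i : Fin 2) : Matrix (N × N × N) (N × N × N) ℂ := V.E i ⊗ₖ V.K2 i + 1 ⊗ₖ V.E2 i

/-- Action of `K_i` on `V ⊗ V ⊗ V`. -/
def K3 (i : Fin 2) : Matrix (N × N × N) (N × N × N) ℂ := V.K i ⊗ₖ V.K2 i

/-- For `V = V(lam)`: `R` is the braiding `R̂_{VV} = τ ∘ R` of `V ⊗ V`, `R` the universal
R-matrix.  It is characterised (uniquely, as `V ⊗ V` is generated by `v ⊗ V`, `v` a highest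
weight vector) by: it commutes with the action of `U_q(sl₃)`, and
`R̂ (v ⊗ w) = q^{(lam, wt w)} w ⊗ v` for highest weight vectors `v ∈ V` and weight vectors `w`. -/
structure IsBraiding (lam : Fin 2 → ℤ) (R : Matrix (N × N) (N × N) ℂ) : Prop where
  commE : ∀ i, R * V.E2 i = V.E2 i * R
  commF : ∀ i, R * V.F2 i = V.F2 i * R
  commK : ∀ i, R * V.K2 i = V.K2 i * R
  norm : ∀ v, V.IsHighest lam v → ∀ b : N,
    R *ᵥ (fun p : N × N => v p.1 * (if p.2 = b then 1 else 0)) =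
      (((q : ℝ) ^ form lam (V.wt b) : ℝ) : ℂ) •
        (fun p : N × N => (if p.1 = b then 1 else 0) * v p.2)

end QModule

section Cubes

variable {N : Type} [Fintype N] [DecidableEq N]

/-- `S_q²V`: the sum of the eigenspaces of the braiding `R` for positive eigenvalues, i.e. the
span of all eigenvectors with positive eigenvalue. -/
def symSq (R : Matrix (N × N) (N × N) ℂ) : Submodule ℂ (N × N → ℂ) :=
  Submodule.span ℂ {t | ∃ r : ℝ, 0 < r ∧ R *ᵥ t = (r : ℂ) • t}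

/-- `Λ_q²V`: the sum of the eigenspaces of the braiding `R` for negative eigenvalues, i.e. the
span of all eigenvectors with negative eigenvalue. -/
def extSq (R : Matrix (N × N) (N × N) ℂ) : Submodule ℂ (N × N → ℂ) :=
  Submodule.span ℂ {t | ∃ r : ℝ, r < 0 ∧ R *ᵥ t = (r : ℂ) • t}

/-- For a subspace `S` of `V ⊗ V`: the subspace `(S ⊗ V) ∩ (V ⊗ S)` of `V ⊗ V ⊗ V`. -/
def cube (S : Submodule ℂ (N × N → ℂ)) : Submodule ℂ (N × N × N → ℂ) where
  carrier := {t | (∀ c, (fun p : N × N => t (p.1, p.2, c)) ∈ S) ∧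
    (∀ a, (fun p : N × N => t (a, p)) ∈ S)}
  add_mem' := fun hs ht =>
    ⟨fun c => S.add_mem (hs.1 c) (ht.1 c), fun a => S.add_mem (hs.2 a) (ht.2 a)⟩
  zero_mem' := ⟨fun _ => S.zero_mem, fun _ => S.zero_mem⟩
  smul_mem' := fun x _ ht => ⟨fun c => S.smul_mem x (ht.1 c), fun a => S.smul_mem x (ht.2 a)⟩

/-- The space of highest weight vectors of weight `mu` (and zero) in a submodule `U` of
`V ⊗ V ⊗ V`. -/
def QModule.hw {q : ℝ} (V : QModule q N) (U : Submodule ℂ (N × N × N → ℂ))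
    (mu : Fin 2 → ℕ) : Submodule ℂ (N × N × N → ℂ) where
  carrier := {t | t ∈ U ∧ ∀ i, V.E3 i *ᵥ t = 0 ∧ V.K3 i *ᵥ t = ((q ^ mu i : ℝ) : ℂ) • t}
  add_mem' := fun hs ht => ⟨U.add_mem hs.1 ht.1, fun i =>
    ⟨by rw [mulVec_add, (hs.2 i).1, (ht.2 i).1, add_zero],
      by rw [mulVec_add, (hs.2 i).2, (ht.2 i).2, smul_add]⟩⟩
  zero_mem' := ⟨U.zero_mem, fun i => ⟨mulVec_zero _, by rw [mulVec_zero, smul_zero]⟩⟩
  smul_mem' := fun x _ ht => ⟨U.smul_mem x ht.1, fun i =>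
    ⟨by rw [mulVec_smul, (ht.2 i).1, smul_zero],
      by rw [mulVec_smul, (ht.2 i).2, smul_comm]⟩⟩

/-- The class in `K(g)` of a submodule `U` of `V ⊗ V ⊗ V`: the function sending the weight `mu`
to the multiplicity of `V(mu)` in `U`, that is, to the dimension of the space of highest weight
vectors of weight `mu` in `U`. -/
noncomputable def QModule.cls {q : ℝ} (V : QModule q N) (U : Submodule ℂ (N × N × N → ℂ))
    (mu : Fin 2 → ℕ) : ℕ :=
  Module.finrank ℂ (V.hw U mu)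

/-- A finite-dimensional `sl₃(ℂ)`-module in a basis of weight vectors indexed by `N`: matrices
`e i`, `f i`, `h i` satisfying the Chevalley-Serre relations. -/
structure CModule (N : Type) [Fintype N] [DecidableEq N] where
  /-- the weights of the basis vectors -/
  wt : N → Fin 2 → ℤ
  /-- the action of `e_i` -/
  e : Fin 2 → Matrix N N ℂ
  /-- the action of `f_i` -/
  f : Fin 2 → Matrix N N ℂ
  /-- the action of `h_i` -/
  h : Fin 2 → Matrix N N ℂ
  /-- the basis consists of weight vectors -/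
  h_eq : ∀ i, h i = diagonal fun b => ((wt b i : ℤ) : ℂ)
  /-- `[h_i, e_j] = a_ij e_j` -/
  he : ∀ i j, h i * e j - e j * h i = (cartan i j : ℂ) • e j
  /-- `[h_i, f_j] = - a_ij f_j` -/
  hf : ∀ i j, h i * f j - f j * h i = (-cartan i j : ℂ) • f j
  /-- `[e_i, f_j] = δ_ij h_i` -/
  ef : ∀ i j, e i * f j - f j * e i = if i = j then h i else 0
  /-- Serre relation `[e_i, [e_i, e_j]] = 0` for `i ≠ j` -/
  serre_e : ∀ i j, i ≠ j → e i * (e i * e j - e j * e i) - (e i * e j - e j * e i) * e i = 0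
  /-- Serre relation `[f_i, [f_i, f_j]] = 0` for `i ≠ j` -/
  serre_f : ∀ i j, i ≠ j → f i * (f i * f j - f j * f i) - (f i * f j - f j * f i) * f i = 0

namespace CModule

variable (W : CModule N)

/-- `W` is the simple `sl₃(ℂ)`-module of highest weight `lam`. -/
def IsSimpleHW (lam : Fin 2 → ℤ) : Prop :=
  (∃ v : N → ℂ, v ≠ 0 ∧ ∀ i, W.e i *ᵥ v = 0 ∧ W.h i *ᵥ v = ((lam i : ℤ) : ℂ) • v) ∧
  ∀ U : Submodule ℂ (N → ℂ),
    (∀ i, ∀ u ∈ U, W.e i *ᵥ u ∈ U ∧ W.f i *ᵥ u ∈ U ∧ W.h i *ᵥ u ∈ U) → U = ⊥ ∨ U = ⊤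

/-- Action of `e_i` on `W ⊗ W ⊗ W`. -/
def e3 (i : Fin 2) : Matrix (N × N × N) (N × N × N) ℂ :=
  W.e i ⊗ₖ (1 ⊗ₖ 1) + 1 ⊗ₖ (W.e i ⊗ₖ 1) + 1 ⊗ₖ (1 ⊗ₖ W.e i)

/-- Action of `h_i` on `W ⊗ W ⊗ W`. -/
def h3 (i : Fin 2) : Matrix (N × N × N) (N × N × N) ℂ :=
  W.h i ⊗ₖ (1 ⊗ₖ 1) + 1 ⊗ₖ (W.h i ⊗ₖ 1) + 1 ⊗ₖ (1 ⊗ₖ W.h i)

/-- The space of highest weight vectors of weight `mu` (and zero) in a submodule `U` of
`W ⊗ W ⊗ W`. -/
def hw (U : Submodule ℂ (N × N × N → ℂ)) (mu : Fin 2 → ℕ) :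
    Submodule ℂ (N × N × N → ℂ) where
  carrier := {t | t ∈ U ∧ ∀ i, W.e3 i *ᵥ t = 0 ∧ W.h3 i *ᵥ t = ((mu i : ℕ) : ℂ) • t}
  add_mem' := fun hs ht => ⟨U.add_mem hs.1 ht.1, fun i =>
    ⟨by rw [mulVec_add, (hs.2 i).1, (ht.2 i).1, add_zero],
      by rw [mulVec_add, (hs.2 i).2, (ht.2 i).2, smul_add]⟩⟩
  zero_mem' := ⟨U.zero_mem, fun i => ⟨mulVec_zero _, by rw [mulVec_zero, smul_zero]⟩⟩
  smul_mem' := fun x _ ht => ⟨U.smul_mem x ht.1, fun i =>
    ⟨by rw [mulVec_smul, (ht.2 i).1, smul_zero],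
      by rw [mulVec_smul, (ht.2 i).2, smul_comm]⟩⟩

/-- The class in `K(g)` (multiplicity function) of a submodule `U` of `W ⊗ W ⊗ W`. -/
noncomputable def cls (U : Submodule ℂ (N × N × N → ℂ)) (mu : Fin 2 → ℕ) : ℕ :=
  Module.finrank ℂ (W.hw U mu)

end CModule

/-- `S²W ⊗ W`, with `S²W ⊆ W ⊗ W` the symmetric tensors. -/
def symSqTensor (N : Type) : Submodule ℂ (N × N × N → ℂ) where
  carrier := {t | ∀ a b c, t (b, a, c) = t (a, b, c)}
  add_mem' := fun hs ht a b c => by simp only [Pi.add_apply, hs a b c, ht a b c]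
  zero_mem' := fun _ _ _ => rfl
  smul_mem' := fun x _ ht a b c => by simp only [Pi.smul_apply, ht a b c]

/-- `Λ²W ⊗ W`, with `Λ²W ⊆ W ⊗ W` the antisymmetric tensors. -/
def extSqTensor (N : Type) : Submodule ℂ (N × N × N → ℂ) where
  carrier := {t | ∀ a b c, t (b, a, c) = -t (a, b, c)}
  add_mem' := fun hs ht a b c => by
    simp only [Pi.add_apply, hs a b c, ht a b c, neg_add]
  zero_mem' := fun _ _ _ => by simp
  smul_mem' := fun x _ ht a b c => by simp only [Pi.smul_apply, ht a b c, smul_neg]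

/-- `[S³_low W] = [S²W ⊗ W] - inf([S²W ⊗ W], [Λ²W ⊗ W])`, as a multiplicity function. -/
noncomputable def CModule.symCubeLow (W : CModule N) (mu : Fin 2 → ℕ) : ℕ :=
  W.cls (symSqTensor N) mu - min (W.cls (symSqTensor N) mu) (W.cls (extSqTensor N) mu)

/-- `[Λ³_low W] = [Λ²W ⊗ W] - inf([S²W ⊗ W], [Λ²W ⊗ W])`, as a multiplicity function. -/
noncomputable def CModule.extCubeLow (W : CModule N) (mu : Fin 2 → ℕ) : ℕ :=
  W.cls (extSqTensor N) mu - min (W.cls (symSqTensor N) mu) (W.cls (extSqTensor N) mu)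

end Cubes

end Pool.Agent.H19.QCube
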