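import Pool.Agent.H19.QCube.Checks
import Pool.Agent.H19.QCube.Defs

/-!
# The 8-dimensional module over `U_q(sl₃)` and its braiding
-/

set_option autoImplicit false

namespace Pool.Agent.H19.QCube

open Matrix Kronecker

theorem ev_mon (q : ℂ) : ∀ n : ℕ, ev q (mon n) = q ^ n
  | 0 => by simp [mon, ev]
  | n + 1 => by simp only [mon, ev, ev_mon q n, pow_succ]; push_cast; ring

/-! ### A simplicity criterion -/

/-- The action of `E_0` (depending on `c = [2]`). -/
def actE0 (c : ℂ) (u : Fin 8 → ℂ) : Fin 8 → ℂ := ![u 2, c * u 3 + u 4, 0, u 5, 0, 0, u 7, 0]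
/-- The action of `E_1`. -/
def actE1 (c : ℂ) (u : Fin 8 → ℂ) : Fin 8 → ℂ := ![u 1, 0, u 3 + c * u 4, 0, u 6, u 7, 0, 0]
/-- The action of `F_0`. -/
def actF0 (c : ℂ) (u : Fin 8 → ℂ) : Fin 8 → ℂ := ![0, 0, u 0, u 1, 0, c * u 3 + u 4, 0, u 6]
/-- The action of `F_1`. -/
def actF1 (c : ℂ) (u : Fin 8 → ℂ) : Fin 8 → ℂ := ![0, u 0, 0, 0, u 2, 0, u 3 + c * u 4, u 5]

/-- Standard basis vectors. -/
def bas (k : Fin 8) : Fin 8 → ℂ := fun i => if i = k then 1 else 0

theorem simple_aux (c : ℂ) (hc : c ≠ 0) (hc1 : c * c - 1 ≠ 0) (U : Submodule ℂ (Fin 8 → ℂ))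
    (h0 : ∀ u ∈ U, actE0 c u ∈ U) (h1 : ∀ u ∈ U, actE1 c u ∈ U)
    (g0 : ∀ u ∈ U, actF0 c u ∈ U) (g1 : ∀ u ∈ U, actF1 c u ∈ U) : U = ⊥ ∨ U = ⊤ := by
  by_cases hU : U = ⊥
  · exact Or.inl hU
  right
  obtain ⟨u, hu, hu0⟩ := (Submodule.ne_bot_iff U).1 hU
  have key : ∀ x : ℂ, x ≠ 0 → x • bas 0 ∈ U → bas 0 ∈ U := by
    intro x hx h
    have := U.smul_mem x⁻¹ h
    rwa [smul_smul, inv_mul_cancel₀ hx, one_smul] at this
  have b0 : bas 0 ∈ U := by
    by_cases h7 : u 7 = 0
    · by_cases h5 : u 5 = 0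
      · by_cases h6 : u 6 = 0
        · by_cases ha : c * u 3 + u 4 = 0
          · by_cases hb : u 3 + c * u 4 = 0
            · have h4 : u 4 = 0 := by
                have : (c * c - 1) * u 4 = 0 := by linear_combination c * hb - ha
                exact (mul_eq_zero.1 this).resolve_left hc1
              have h3 : u 3 = 0 := by
                rw [h4] at hb; simpa using hb
              by_cases h2 : u 2 = 0
              · by_cases h1' : u 1 = 0
                · have hne : u 0 ≠ 0 := by
                    intro h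
                    apply hu0
                    ext i
                    fin_cases i <;> simp_all
                  refine key (u 0) hne ?_
                  convert hu using 1
                  ext i
                  fin_cases i <;> simp_all [bas]
                · refine key (u 1) h1' ?_
                  convert h1 u hu using 1
                  ext i
                  fin_cases i <;> simp_all [bas, actE1]
              · refine key (u 2) h2 ?_
                convert h0 u hu using 1
                ext i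
                fin_cases i <;> simp_all [bas, actE0]
            · refine key _ hb ?_
              convert h0 _ (h1 u hu) using 1
              ext i
              fin_cases i <;> simp_all [bas, actE0, actE1]
          · refine key _ ha ?_
            convert h1 _ (h0 u hu) using 1
            ext i
            fin_cases i <;> simp_all [bas, actE0, actE1]
        · refine key _ h6 ?_
          convert h1 _ (h0 _ (h1 u hu)) using 1
          ext i
          fin_cases i <;> simp_all [bas, actE0, actE1]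
      · refine key _ h5 ?_
        convert h0 _ (h1 _ (h0 u hu)) using 1
        ext i
        fin_cases i <;> simp_all [bas, actE0, actE1]
    · refine key (c * u 7) (mul_ne_zero hc h7) ?_
      convert h0 _ (h1 _ (h1 _ (h0 u hu))) using 1
      ext i
      fin_cases i <;> simp [bas, actE0, actE1]
  have b2 : bas 2 ∈ U := by
    convert g0 _ b0 using 1
    ext i; fin_cases i <;> simp [bas, actF0]
  have b1 : bas 1 ∈ U := by
    convert g1 _ b0 using 1
    ext i; fin_cases i <;> simp [bas, actF1]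
  have b3 : bas 3 ∈ U := by
    convert g0 _ b1 using 1
    ext i; fin_cases i <;> simp [bas, actF0]
  have b4 : bas 4 ∈ U := by
    convert g1 _ b2 using 1
    ext i; fin_cases i <;> simp [bas, actF1]
  have b5 : bas 5 ∈ U := by
    convert g0 _ b4 using 1
    ext i; fin_cases i <;> simp [bas, actF0]
  have b6 : bas 6 ∈ U := by
    convert g1 _ b3 using 1
    ext i; fin_cases i <;> simp [bas, actF1]
  have b7 : bas 7 ∈ U := by
    convert g0 _ b6 using 1
    ext i; fin_cases i <;> simp [bas, actF0]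
  rw [eq_top_iff]
  intro w _
  have : w = w 0 • bas 0 + w 1 • bas 1 + w 2 • bas 2 + w 3 • bas 3 + w 4 • bas 4 +
      w 5 • bas 5 + w 6 • bas 6 + w 7 • bas 7 := by
    ext i; fin_cases i <;> simp [bas]
  rw [this]
  exact U.add_mem (U.add_mem (U.add_mem (U.add_mem (U.add_mem (U.add_mem (U.add_mem
    (U.smul_mem _ b0) (U.smul_mem _ b1)) (U.smul_mem _ b2)) (U.smul_mem _ b3))
    (U.smul_mem _ b4)) (U.smul_mem _ b5)) (U.smul_mem _ b6)) (U.smul_mem _ b7)

/-! ### The module -/

section Module

variable (q : ℝ)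

/-- The matrices of `E_i`. -/
noncomputable def mE (i : Fin 2) : Matrix (Fin 8) (Fin 8) ℂ := ((q : ℂ))⁻¹ • mat (q : ℂ) (colE i)

/-- The matrices of `F_i`. -/
noncomputable def mF (i : Fin 2) : Matrix (Fin 8) (Fin 8) ℂ := ((q : ℂ))⁻¹ • mat (q : ℂ) (colF i)

/-- The matrices of `K_i`. -/
noncomputable def mK (i : Fin 2) : Matrix (Fin 8) (Fin 8) ℂ :=
  diagonal fun b => (((q ^ wtD b i : ℝ)) : ℂ)

/-- The matrices of `K_i⁻¹`. -/
noncomputable def mKi (i : Fin 2) : Matrix (Fin 8) (Fin 8) ℂ :=
  diagonal fun b => (((q ^ (-wtD b i) : ℝ)) : ℂ)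

theorem colK_eq : ∀ i : Fin 2, ∀ b : Fin 8, colK i b = [(b, mon (2 + wtD b i).toNat)] := by
  decide +kernel

theorem colKi_eq : ∀ i : Fin 2, ∀ b : Fin 8, colKi i b = [(b, mon (2 - wtD b i).toNat)] := by
  decide +kernel

theorem wtD_range : ∀ i : Fin 2, ∀ b : Fin 8, 0 ≤ 2 + wtD b i ∧ 0 ≤ 2 - wtD b i := by
  decide +kernel

variable {q}

theorem mK_eq (hq : 0 < q) (i : Fin 2) :
    mK q i = ((q : ℂ) ^ 2)⁻¹ • mat (q : ℂ) (colK i) := by
  have hq0 : (q : ℂ) ≠ 0 := by exact_mod_cast hq.ne'
  ext a b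
  simp only [mK, Matrix.smul_apply, mat, colK_eq, sem, ev_mon, smul_eq_mul, add_zero]
  by_cases h : a = b
  · subst h
    rw [diagonal_apply_eq, if_pos rfl]
    have h1 : ((2 + wtD a i).toNat : ℤ) = 2 + wtD a i := Int.toNat_of_nonneg (wtD_range i a).1
    have h2 : (q : ℂ) ^ (2 + wtD a i).toNat = (q : ℂ) ^ (2 + wtD a i) := by
      rw [← zpow_natCast, h1]
    rw [h2, zpow_add₀ hq0]
    push_cast
    field_simp
  · have h' : ¬ b = a := fun hh => h hh.symm
    rw [diagonal_apply_ne _ h, if_neg h']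
    simp

theorem mKi_eq (hq : 0 < q) (i : Fin 2) :
    mKi q i = ((q : ℂ) ^ 2)⁻¹ • mat (q : ℂ) (colKi i) := by
  have hq0 : (q : ℂ) ≠ 0 := by exact_mod_cast hq.ne'
  ext a b
  simp only [mKi, Matrix.smul_apply, mat, colKi_eq, sem, ev_mon, smul_eq_mul, add_zero]
  by_cases h : a = b
  · subst h
    rw [diagonal_apply_eq, if_pos rfl]
    have h1 : ((2 - wtD a i).toNat : ℤ) = 2 + -wtD a i := by
      rw [Int.toNat_of_nonneg (wtD_range i a).2]; ring
    have h2 : (q : ℂ) ^ (2 - wtD a i).toNat = (q : ℂ) ^ (2 + -wtD a i) := by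
      rw [← zpow_natCast, h1]
    rw [h2, zpow_add₀ hq0]
    push_cast
    field_simp
  · have h' : ¬ b = a := fun hh => h hh.symm
    rw [diagonal_apply_ne _ h, if_neg h']
    simp

theorem tilde_KE (i j : Fin 2) : ((q : ℂ) ^ 2) • (mat (q : ℂ) (colK i) * mat (q : ℂ) (colE j)) =
    ((q : ℂ) ^ (if i = j then 4 else 1)) • (mat (q : ℂ) (colE j) * mat (q : ℂ) (colK i)) := by
  rw [mat_mul, mat_mul, ← ev_mon, ← ev_mon, mat_smul, mat_smul]
  exact mat_ext _ _ _ (check_KE i j)

theorem tilde_KF (i j : Fin 2) : ((q : ℂ) ^ 2) • (mat (q : ℂ) (colK i) * mat (q : ℂ) (colF j)) =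
    ((q : ℂ) ^ (if i = j then 0 else 3)) • (mat (q : ℂ) (colF j) * mat (q : ℂ) (colK i)) := by
  rw [mat_mul, mat_mul, ← ev_mon, ← ev_mon, mat_smul, mat_smul]
  exact mat_ext _ _ _ (check_KF i j)

theorem tilde_EF (i j : Fin 2) :
    ((q : ℂ) ^ 2 - 1) • (mat (q : ℂ) (colE i) * mat (q : ℂ) (colF j)) =
    ((q : ℂ) ^ 2 - 1) • (mat (q : ℂ) (colF j) * mat (q : ℂ) (colE i)) +
      (if i = j then (q : ℂ) • mat (q : ℂ) (colK i) - (q : ℂ) • mat (q : ℂ) (colKi i) else 0) := by
  have h1 : (q : ℂ) ^ 2 - 1 = ev (q : ℂ) [-1, 0, 1] := by simp [ev]; ring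
  rw [mat_mul, mat_mul, h1, mat_smul, mat_smul]
  split_ifs with h
  · subst h
    have h2 : (q : ℂ) • mat (q : ℂ) (colK i) - (q : ℂ) • mat (q : ℂ) (colKi i) =
        mat (q : ℂ) (fun b => scal [0, 1] (colK i b) ++ scal [0, -1] (colKi i b)) := by
      rw [← mat_add, ← mat_smul, ← mat_smul]
      simp only [ev]
      push_cast
      simp only [mul_zero, add_zero, zero_add, mul_one, mul_neg, neg_smul]
      rw [← sub_eq_add_neg]
    rw [h2, mat_add]
    refine mat_ext _ _ _ fun b => ?_
    have := check_EF i i b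
    simpa using this
  · rw [add_zero]
    refine mat_ext _ _ _ fun b => ?_
    have := check_EF i j b
    simpa [h] using this

theorem tilde_serre (X : Fin 2 → Fin 8 → List (Fin 8 × List ℤ)) (i j : Fin 2)
    (h : ∀ b : Fin 8,
    eqv (scal [0, 1] (app (X i) (app (X i) (X j b))) ++
        scal [0, 1] (app (X j) (app (X i) (X i b))))
      (scal [1, 0, 1] (app (X i) (app (X j) (X i b)))) = true) :
    (q : ℂ) • (mat (q : ℂ) (X i) * (mat (q : ℂ) (X i) * mat (q : ℂ) (X j))) +
    (q : ℂ) • (mat (q : ℂ) (X j) * (mat (q : ℂ) (X i) * mat (q : ℂ) (X i))) =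
    (1 + (q : ℂ) ^ 2) • (mat (q : ℂ) (X i) * (mat (q : ℂ) (X j) * mat (q : ℂ) (X i))) := by
  have h1 : (q : ℂ) = ev (q : ℂ) [0, 1] := by simp [ev]
  have h2 : 1 + (q : ℂ) ^ 2 = ev (q : ℂ) [1, 0, 1] := by simp [ev]; ring
  have h3 : ∀ M : Matrix (Fin 8) (Fin 8) ℂ, (q : ℂ) • M = ev (q : ℂ) [0, 1] • M :=
    fun M => congrArg (· • M) h1
  rw [h2, h3, h3]
  simp only [mat_mul, mat_smul, mat_add]
  exact mat_ext _ _ _ h

/-- The adjoint module over `U_q(sl₃)`. -/
noncomputable def adj (q : ℝ) (hq : 0 < q) (hq1 : q ≠ 1) : QModule q (Fin 8) where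
  wt := wtD
  E := mE q
  F := mF q
  K := mK q
  Kinv := mKi q
  K_eq _ := rfl
  Kinv_eq _ := rfl
  KE i j := by
    have hq0 : (q : ℂ) ≠ 0 := by exact_mod_cast hq.ne'
    have h := tilde_KE (q := q) i j
    rw [mK_eq hq, mE]
    simp only [smul_mul_assoc, mul_smul_comm, smul_smul]
    ext a b
    have h' := congrFun (congrFun h a) b
    simp only [Matrix.smul_apply, smul_eq_mul] at h' ⊢
    by_cases hij : i = j
    · simp only [hij, if_true, cartan] at h' ⊢
      push_cast
      have h2 : (q : ℂ) ^ (2 : ℤ) = (q : ℂ) ^ 2 := by norm_cast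
      rw [h2]
      field_simp
      field_simp at h'
      linear_combination h'
    · simp only [hij, if_false, cartan] at h' ⊢
      push_cast
      have h2 : (q : ℂ) ^ (-1 : ℤ) = (q : ℂ)⁻¹ := by simp
      rw [h2]
      field_simp
      field_simp at h'
      linear_combination h'
  KF i j := by
    have hq0 : (q : ℂ) ≠ 0 := by exact_mod_cast hq.ne'
    have h := tilde_KF (q := q) i j
    rw [mK_eq hq, mF]
    simp only [smul_mul_assoc, mul_smul_comm, smul_smul]
    ext a b
    have h' := congrFun (congrFun h a) b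
    simp only [Matrix.smul_apply, smul_eq_mul] at h' ⊢
    by_cases hij : i = j
    · simp only [hij, if_true, cartan] at h' ⊢
      push_cast
      have h2 : (q : ℂ) ^ (-2 : ℤ) = ((q : ℂ) ^ 2)⁻¹ := by
        rw [_root_.zpow_neg]; norm_cast
      rw [h2]
      field_simp
      field_simp at h'
      linear_combination h'
    · simp only [hij, if_false, cartan] at h' ⊢
      push_cast
      have h2 : (q : ℂ) ^ (1 : ℤ) = (q : ℂ) := by simp
      rw [h2]
      field_simp
      field_simp at h'
      linear_combination h'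
  EF i j := by
    have hq0 : (q : ℂ) ≠ 0 := by exact_mod_cast hq.ne'
    have hq2' : q ^ 2 - 1 ≠ 0 := by
      have : (q - 1) * (q + 1) ≠ 0 := mul_ne_zero (sub_ne_zero.2 hq1) (by positivity)
      intro h; apply this; linear_combination h
    have hq2 : (q : ℂ) ^ 2 - 1 ≠ 0 := by exact_mod_cast hq2'
    have h := tilde_EF (q := q) i j
    rw [mK_eq hq, mKi_eq hq, mE, mF]
    simp only [smul_mul_assoc, mul_smul_comm, smul_smul]
    ext a b
    have h' := congrFun (congrFun h a) b
    by_cases hij : i = j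
    · simp only [hij, if_true, Matrix.smul_apply, smul_eq_mul, Matrix.sub_apply,
        Matrix.add_apply] at h' ⊢
      have h3 : (((q - q⁻¹)⁻¹ : ℝ) : ℂ) = (q : ℂ) / ((q : ℂ) ^ 2 - 1) := by
        push_cast
        have : (q : ℂ) - (q : ℂ)⁻¹ = ((q : ℂ) ^ 2 - 1) / q := by field_simp
        rw [this, inv_div]
      rw [h3]
      field_simp
      linear_combination h'
    · simp only [hij, if_false, Matrix.smul_apply, smul_eq_mul, Matrix.sub_apply,
        Matrix.add_apply, Matrix.zero_apply, add_zero] at h' ⊢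
      have h4 := mul_left_cancel₀ hq2 h'
      rw [h4]
      ring
  serreE i j hij := by
    have hq0 : (q : ℂ) ≠ 0 := by exact_mod_cast hq.ne'
    have h := tilde_serre (q := q) colE i j (check_serreE i j hij)
    simp only [mE, smul_mul_assoc, mul_smul_comm, smul_smul, mul_assoc]
    ext a b
    have h' := congrFun (congrFun h a) b
    simp only [Matrix.smul_apply, smul_eq_mul, Matrix.sub_apply,
      Matrix.add_apply, Matrix.zero_apply, mul_assoc] at h' ⊢
    push_cast
    field_simp
    linear_combination h'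
  serreF i j hij := by
    have hq0 : (q : ℂ) ≠ 0 := by exact_mod_cast hq.ne'
    have h := tilde_serre (q := q) colF i j (check_serreF i j hij)
    simp only [mF, smul_mul_assoc, mul_smul_comm, smul_smul, mul_assoc]
    ext a b
    have h' := congrFun (congrFun h a) b
    simp only [Matrix.smul_apply, smul_eq_mul, Matrix.sub_apply,
      Matrix.add_apply, Matrix.zero_apply, mul_assoc] at h' ⊢
    push_cast
    field_simp
    linear_combination h'

end Module

end Pool.Agent.H19.QCube
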