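import Pool.Agent.H19.QCube.ClassicalChecks
import Pool.Agent.H19.QCube.Quantum

/-!
# The classical adjoint module of `sl₃` and the multiplicity of the trivial module in
`S²W ⊗ W` and `Λ²W ⊗ W`
-/

set_option autoImplicit false

namespace Pool.Agent.H19.QCube

open Matrix Kronecker

theorem matH_eq (i : Fin 2) : mat (1 : ℂ) (ccH i) = diagonal fun b => ((wtD b i : ℤ) : ℂ) := by
  ext a b
  simp only [mat, check_ccH, sem, ev]
  by_cases h : b = a
  · subst h; simp
  · have h' : a ≠ b := fun hh => h hh.symm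
    simp [h, diagonal_apply_ne _ h']

/-- The adjoint module of `sl₃(ℂ)`. -/
noncomputable def cadj : CModule (Fin 8) where
  wt := wtD
  e i := mat 1 (ccE i)
  f i := mat 1 (ccF i)
  h i := mat 1 (ccH i)
  h_eq i := matH_eq i
  he i j := by
    have h1 : (cartan i j : ℂ) • mat (1 : ℂ) (ccE j) =
        mat 1 (fun b => scal [if i = j then 2 else -1] (ccE j b)) := by
      rw [← mat_smul]
      simp only [cartan, ev]
      simp
    rw [h1, sub_eq_iff_eq_add', mat_mul, mat_mul, mat_add]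
    exact mat_ext _ _ _ (check_che i j)
  hf i j := by
    have h1 : (-cartan i j : ℂ) • mat (1 : ℂ) (ccF j) =
        mat 1 (fun b => scal [if i = j then -2 else 1] (ccF j b)) := by
      rw [← mat_smul]
      simp only [cartan, ev]
      split_ifs <;> simp
    rw [h1, sub_eq_iff_eq_add', mat_mul, mat_mul, mat_add]
    exact mat_ext _ _ _ (check_chf i j)
  ef i j := by
    rw [sub_eq_iff_eq_add', mat_mul, mat_mul]
    split_ifs with h
    · subst h
      rw [mat_add]
      refine mat_ext _ _ _ fun b => ?_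
      have := check_cef i i b
      simpa using this
    · rw [add_zero]
      refine mat_ext _ _ _ fun b => ?_
      have := check_cef i j b
      simpa [h] using this
  serre_e i j hij := by
    have h : mat (1 : ℂ) (ccE i) * (mat 1 (ccE i) * mat 1 (ccE j)) +
        mat 1 (ccE j) * (mat 1 (ccE i) * mat 1 (ccE i)) =
        mat 1 (ccE i) * (mat 1 (ccE j) * mat 1 (ccE i)) +
        mat 1 (ccE i) * (mat 1 (ccE j) * mat 1 (ccE i)) := by
      simp only [mat_mul, mat_add]
      exact mat_ext _ _ _ (check_cserreE i j hij)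
    rw [mul_sub, sub_mul, mul_assoc, mul_assoc]
    rw [sub_sub_sub_eq] at *
    rw [h]
    abel
  serre_f i j hij := by
    have h : mat (1 : ℂ) (ccF i) * (mat 1 (ccF i) * mat 1 (ccF j)) +
        mat 1 (ccF j) * (mat 1 (ccF i) * mat 1 (ccF i)) =
        mat 1 (ccF i) * (mat 1 (ccF j) * mat 1 (ccF i)) +
        mat 1 (ccF i) * (mat 1 (ccF j) * mat 1 (ccF i)) := by
      simp only [mat_mul, mat_add]
      exact mat_ext _ _ _ (check_cserreF i j hij)
    rw [mul_sub, sub_mul, mul_assoc, mul_assoc]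
    rw [sub_sub_sub_eq] at *
    rw [h]
    abel

/-! ### Simplicity -/

theorem ccE0_mulVec (u : Fin 8 → ℂ) : mat 1 (ccE 0) *ᵥ u = actE0 2 u := by
  ext a
  fin_cases a <;>
  simp [mulVec, dotProduct, Fin.sum_univ_eight, mat, sem, ccE, ev, actE0]

theorem ccE1_mulVec (u : Fin 8 → ℂ) : mat 1 (ccE 1) *ᵥ u = actE1 2 u := by
  ext a
  fin_cases a <;>
  simp [mulVec, dotProduct, Fin.sum_univ_eight, mat, sem, ccE, ev, actE1]

theorem ccF0_mulVec (u : Fin 8 → ℂ) : mat 1 (ccF 0) *ᵥ u = actF0 2 u := by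
  ext a
  fin_cases a <;>
  simp [mulVec, dotProduct, Fin.sum_univ_eight, mat, sem, ccF, ev, actF0]

theorem ccF1_mulVec (u : Fin 8 → ℂ) : mat 1 (ccF 1) *ᵥ u = actF1 2 u := by
  ext a
  fin_cases a <;>
  simp [mulVec, dotProduct, Fin.sum_univ_eight, mat, sem, ccF, ev, actF1]

theorem cadj_simple : cadj.IsSimpleHW ![1, 1] := by
  refine ⟨⟨bas 0, ?_, ?_⟩, ?_⟩
  · intro h
    have := congrFun h 0
    simp [bas] at this
  · intro i
    fin_cases i
    · constructor
      · change mat 1 (ccE 0) *ᵥ bas 0 = 0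
        rw [ccE0_mulVec]
        ext a; fin_cases a <;> simp [actE0, bas]
      · change mat 1 (ccH 0) *ᵥ bas 0 = _
        ext a
        rw [matH_eq, mulVec_diagonal]
        fin_cases a <;> simp [bas, wtD]
    · constructor
      · change mat 1 (ccE 1) *ᵥ bas 0 = 0
        rw [ccE1_mulVec]
        ext a; fin_cases a <;> simp [actE1, bas]
      · change mat 1 (ccH 1) *ᵥ bas 0 = _
        ext a
        rw [matH_eq, mulVec_diagonal]
        fin_cases a <;> simp [bas, wtD]
  · intro U hU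
    refine simple_aux 2 two_ne_zero (by norm_num) U ?_ ?_ ?_ ?_
    · intro u hu
      have := (hU 0 u hu).1
      change mat 1 (ccE 0) *ᵥ u ∈ U at this
      rwa [ccE0_mulVec] at this
    · intro u hu
      have := (hU 1 u hu).1
      change mat 1 (ccE 1) *ᵥ u ∈ U at this
      rwa [ccE1_mulVec] at this
    · intro u hu
      have := (hU 0 u hu).2.1
      change mat 1 (ccF 0) *ᵥ u ∈ U at this
      rwa [ccF0_mulVec] at this
    · intro u hu
      have := (hU 1 u hu).2.1
      change mat 1 (ccF 1) *ᵥ u ∈ U at this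
      rwa [ccF1_mulVec] at this

/-! ### The tensor cube -/

theorem cadj_e3 (i : Fin 2) : cadj.e3 i = mat 1 (ccE3 i) := by
  change mat 1 (ccE i) ⊗ₖ (1 ⊗ₖ 1) + 1 ⊗ₖ (mat 1 (ccE i) ⊗ₖ 1) + 1 ⊗ₖ (1 ⊗ₖ mat 1 (ccE i)) = _
  rw [← mat_one (1 : ℂ), mat_kron, mat_kron, mat_kron, mat_kron, mat_kron, mat_kron, add_assoc,
    mat_add, mat_add]
  rfl

theorem cadj_h3 (i : Fin 2) : cadj.h3 i =
    diagonal fun p : Tri => ((wtD p.1 i + wtD p.2.1 i + wtD p.2.2 i : ℤ) : ℂ) := by
  change mat 1 (ccH i) ⊗ₖ (1 ⊗ₖ 1) + 1 ⊗ₖ (mat 1 (ccH i) ⊗ₖ 1) + 1 ⊗ₖ (1 ⊗ₖ mat 1 (ccH i)) = _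
  rw [matH_eq]
  simp only [← diagonal_one, diagonal_kronecker_diagonal, diagonal_add]
  congr 1
  ext ⟨a, b, c⟩
  push_cast
  ring

/-- Pairing of a sparse vector with a tensor. -/
noncomputable def pair (v : SV Tri) (t : Tri → ℂ) : ℂ := ∑ y, sem 1 v y * t y

theorem pair_append (v w : SV Tri) (t : Tri → ℂ) : pair (v ++ w) t = pair v t + pair w t := by
  simp only [pair, sem_append, add_mul, Finset.sum_add_distrib]

theorem pair_scal (p : Poly) (v : SV Tri) (t : Tri → ℂ) :
    pair (scal p v) t = ev 1 p * pair v t := by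
  simp only [pair, sem_scal, Finset.mul_sum, mul_assoc]

theorem pair_nil (t : Tri → ℂ) : pair [] t = 0 := by
  simp [pair, sem]

theorem pair_cons (x : Tri × Poly) (v : SV Tri) (t : Tri → ℂ) :
    pair (x :: v) t = ev 1 x.2 * t x.1 + pair v t := by
  simp only [pair, sem, add_mul, Finset.sum_add_distrib]
  have h : ∑ y : Tri, (if x.1 = y then ev 1 x.2 else 0) * t y = ev 1 x.2 * t x.1 := by
    rw [Finset.sum_eq_single x.1]
    · rw [if_pos rfl]
    · intro b _ hb
      rw [if_neg (Ne.symm hb), zero_mul]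
    · intro h
      exact absurd (Finset.mem_univ _) h
  rw [h]

theorem sem_rrE (i : Fin 2) (a b : Fin 8) : sem 1 (rrE i a) b = sem 1 (ccE i b) a := by
  rw [sem_eq_ev_coef, sem_eq_ev_coef, check_rrE]

theorem sem_sone_comm (a b : Fin 8) : sem (1 : ℂ) (sone a) b = sem 1 (sone b) a := by
  simp only [sone, sem]
  by_cases h : a = b
  · subst h; rfl
  · have h' : ¬ b = a := fun hh => h hh.symm
    simp [h, h']

theorem sem_rrE3 (i : Fin 2) (x y : Tri) : sem 1 (rrE3 i x) y = sem 1 (ccE3 i y) x := by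
  obtain ⟨a, b, c⟩ := x
  obtain ⟨a', b', c'⟩ := y
  simp only [rrE3, ccE3, sem_append, sem_tens, sem_rrE]
  rw [sem_sone_comm a a', sem_sone_comm b b', sem_sone_comm c c']

/-- The space of (anti)symmetric (in the first two arguments) invariant tensors. -/
def GoodT (s : ℤ) (t : Tri → ℂ) : Prop :=
  (∀ a b c, t (b, a, c) = (s : ℂ) * t (a, b, c)) ∧
  (∀ i, cadj.e3 i *ᵥ t = 0) ∧ (∀ i, cadj.h3 i *ᵥ t = 0)

theorem pair_eqnRow {s : ℤ} {t : Tri → ℂ} (h : GoodT s t) (k : ℕ) : pair (eqnRow s k) t = 0 := by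
  unfold eqnRow
  split_ifs
  · have h1 := congrFun (h.2.1 (Fin.ofNat 2 (k / 512))) (decTri k)
    rw [cadj_e3] at h1
    rw [Pi.zero_apply] at h1
    rw [← h1]
    simp only [pair, mulVec, dotProduct, mat, sem_rrE3]
  · rw [pair_cons, pair_cons, pair_nil, h.1 (decTri k).1 (decTri k).2.1 (decTri k).2.2]
    simp only [ev]
    push_cast
    ring

theorem pair_expand {s : ℤ} {t : Tri → ℂ} (h : GoodT s t) : ∀ l : List ℕ,
    pair (expand s l) t = 0
  | [] => pair_nil t
  | k :: l => by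
    rw [expand, pair_append, pair_scal, pair_eqnRow h, pair_expand h l, mul_zero, add_zero]

theorem certOK_sound {s : ℤ} {t : Tri → ℂ} (h : GoodT s t) (x0 : Tri) (hx : t x0 = 0) (n : ℕ)
    (hn : certOK s x0 n = true) : t (certHead n) = 0 := by
  unfold certOK at hn
  split at hn
  · rename_i y d c l heq
    have hy : y = n % 16777216 := by
      rw [digs] at heq
      split_ifs at heq
      exact ((List.cons.inj heq).1).symm
    rw [certHead, ← hy]
    rw [Bool.and_eq_true, decide_eq_true_eq] at hn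
    have h1 : pair (expand s l) t = pair [(decTri y, [(d : ℤ) - 512]), (x0, [(c : ℤ) - 512])] t := by
      unfold pair
      exact Finset.sum_congr rfl fun z _ => by rw [sem_eq_of_feqv 1 _ _ hn.2]
    rw [pair_expand h, pair_cons, pair_cons, pair_nil, hx, mul_zero, zero_add, add_zero] at h1
    have h2 : ev 1 [(d : ℤ) - 512] ≠ 0 := by
      simp only [ev, mul_zero, add_zero]
      exact_mod_cast hn.1
    exact (mul_eq_zero.1 h1.symm).resolve_left h2
  · exact absurd hn (by simp)

theorem goodT_eq_zero {s : ℤ} {t : Tri → ℂ} (h : GoodT s t) (x0 : Tri) (hx : t x0 = 0)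
    (l : List ℕ) (hl : l.all (certOK s x0) = true)
    (hcov : ∀ a b c : Fin 8, (∀ i : Fin 2, wtD a i + wtD b i + wtD c i = 0) →
      (a, b, c) = x0 ∨ (a, b, c) ∈ l.map certHead) : t = 0 := by
  ext ⟨a, b, c⟩
  by_cases hw : ∀ i : Fin 2, wtD a i + wtD b i + wtD c i = 0
  · rcases hcov a b c hw with h1 | h1
    · rw [h1, hx]; rfl
    · obtain ⟨n, hn, hn'⟩ := List.mem_map.1 h1
      rw [← hn']
      exact certOK_sound h x0 hx n (List.all_eq_true.1 hl n hn)
  · push Not at hw
    obtain ⟨i, hi⟩ := hw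
    have h1 := congrFun (h.2.2 i) (a, b, c)
    rw [cadj_h3, mulVec_diagonal, Pi.zero_apply] at h1
    have h2 : ((wtD a i + wtD b i + wtD c i : ℤ) : ℂ) ≠ 0 := by exact_mod_cast hi
    exact (mul_eq_zero.1 h1).resolve_left h2

end Pool.Agent.H19.QCube
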