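import Pool.Agent.H19.QCube.Classical

/-!
# `[S²W ⊗ W]` and `[Λ²W ⊗ W]` both contain the trivial module exactly once
-/

set_option autoImplicit false

namespace Pool.Agent.H19.QCube

open Matrix Kronecker

theorem goodT_of_mem {s : ℤ} {U : Submodule ℂ (Tri → ℂ)}
    (hU : ∀ t ∈ U, ∀ a b c, t (b, a, c) = (s : ℂ) * t (a, b, c)) {t : Tri → ℂ}
    (ht : t ∈ cadj.hw U 0) : GoodT s t := by
  refine ⟨hU t ht.1, fun i => (ht.2 i).1, fun i => ?_⟩
  rw [(ht.2 i).2, Pi.zero_apply, Nat.cast_zero, zero_smul]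

theorem mem_of_goodT {s : ℤ} {U : Submodule ℂ (Tri → ℂ)} {t : Tri → ℂ} (hU : t ∈ U)
    (ht : GoodT s t) : t ∈ cadj.hw U 0 := by
  refine ⟨hU, fun i => ⟨ht.2.1 i, ?_⟩⟩
  rw [ht.2.2 i, Pi.zero_apply, Nat.cast_zero, zero_smul]

theorem cls_eq_one {s : ℤ} (U : Submodule ℂ (Tri → ℂ))
    (hU : ∀ t ∈ U, ∀ a b c, t (b, a, c) = (s : ℂ) * t (a, b, c)) (x0 : Tri)
    (l : List ℕ) (hl : l.all (certOK s x0) = true)
    (hcov : ∀ a b c : Fin 8, (∀ i : Fin 2, wtD a i + wtD b i + wtD c i = 0) →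
      (a, b, c) = x0 ∨ (a, b, c) ∈ l.map certHead)
    (v : Tri → ℂ) (hvU : v ∈ U) (hv : GoodT s v) (hv0 : v ≠ 0) :
    cadj.cls U 0 = 1 := by
  apply le_antisymm
  · have h1 : Function.Injective ((LinearMap.proj (R := ℂ) (φ := fun _ : Tri => ℂ) x0).comp
        (Submodule.subtype (cadj.hw U 0))) := by
      rw [injective_iff_map_eq_zero]
      intro t ht
      have := goodT_eq_zero (goodT_of_mem hU t.2) x0 ht l hl hcov
      exact Subtype.ext this
    have h2 := LinearMap.finrank_le_finrank_of_injective h1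
    rw [Module.finrank_self] at h2
    exact h2
  · have h1 : 0 < cadj.cls U 0 := by
      unfold CModule.cls
      rw [Module.finrank_pos_iff]
      exact ⟨⟨⟨v, mem_of_goodT hvU hv⟩, 0, fun h => hv0 (congrArg Subtype.val h)⟩⟩
    exact h1

theorem goodT_sem {s : ℤ} (v : SV Tri) (hE : ∀ i : Fin 2, isZ (app (ccE3 i) v) = true)
    (hw : ∀ a b c : Fin 8, coef v (a, b, c) = [] ∨
      ∀ i : Fin 2, wtD a i + wtD b i + wtD c i = 0)
    (hs : ∀ a b c, sem 1 v (b, a, c) = (s : ℂ) * sem 1 v (a, b, c)) : GoodT s (sem 1 v) := by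
  refine ⟨hs, fun i => ?_, fun i => ?_⟩
  · rw [cadj_e3, mat_mulVec]
    ext x
    exact sem_eq_zero_of_isZ 1 _ (hE i) x
  · rw [cadj_h3]
    ext ⟨a, b, c⟩
    rw [mulVec_diagonal, Pi.zero_apply]
    rcases hw a b c with h | h
    · rw [sem_eq_ev_coef, h]
      simp [ev]
    · rw [h i]
      simp

theorem sem_cS_sym (a b c : Fin 8) : sem (1 : ℂ) cS (b, a, c) = sem 1 cS (a, b, c) := by
  rw [sem_eq_ev_coef, sem_eq_ev_coef, check_cS_sym]

theorem sem_cA_sym (a b c : Fin 8) : sem (1 : ℂ) cA (b, a, c) = -sem 1 cA (a, b, c) := by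
  rw [sem_eq_ev_coef, sem_eq_ev_coef, check_cA_sym, ev_psmul]
  push_cast
  ring

theorem sem_ne_zero {v : SV Tri} {x : Tri} (h : ∃ z : ℤ, z ≠ 0 ∧ coef v x = [z]) :
    sem (1 : ℂ) v ≠ 0 := by
  obtain ⟨z, hz, h⟩ := h
  intro h0
  have h1 := congrFun h0 x
  rw [sem_eq_ev_coef, h] at h1
  simp only [ev, Pi.zero_apply, mul_zero, add_zero] at h1
  exact hz (by exact_mod_cast h1)

theorem cls_sym : cadj.cls (symSqTensor (Fin 8)) 0 = 1 := by
  refine cls_eq_one (s := 1) _ ?_ (7, 3, 0) certS check_certS check_coverS (sem 1 cS) ?_ ?_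
    (sem_ne_zero check_cS_ne)
  · intro t ht a b c
    rw [Int.cast_one, one_mul]
    exact ht a b c
  · exact sem_cS_sym
  · refine goodT_sem _ check_cS_E check_cS_wt fun a b c => ?_
    rw [Int.cast_one, one_mul]
    exact sem_cS_sym a b c

theorem cls_ext : cadj.cls (extSqTensor (Fin 8)) 0 = 1 := by
  refine cls_eq_one (s := -1) _ ?_ (7, 4, 0) certA check_certA check_coverA (sem 1 cA) ?_ ?_
    (sem_ne_zero check_cA_ne)
  · intro t ht a b c
    rw [Int.cast_neg, Int.cast_one, neg_one_mul]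
    exact ht a b c
  · exact sem_cA_sym
  · refine goodT_sem _ check_cA_E check_cA_wt fun a b c => ?_
    rw [Int.cast_neg, Int.cast_one, neg_one_mul]
    exact sem_cA_sym a b c

theorem symCubeLow_zero : cadj.symCubeLow 0 = 0 := by
  rw [CModule.symCubeLow, cls_sym, cls_ext]
  rfl

theorem extCubeLow_zero : cadj.extCubeLow 0 = 0 := by
  rw [CModule.extCubeLow, cls_sym, cls_ext]
  rfl

end Pool.Agent.H19.QCube
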