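import Pool.Agent.H19.QCube.Fast

/-!
# Kernel-checked identities for the classical data
-/

set_option autoImplicit false

namespace Pool.Agent.H19.QCube

/-- The columns of the action of `e_i` on the tensor cube. -/
def ccE3 (i : Fin 2) (p : Tri) : SV Tri :=
  tens (ccE i p.1) (tens (sone p.2.1) (sone p.2.2)) ++
    (tens (sone p.1) (tens (ccE i p.2.1) (sone p.2.2)) ++
      tens (sone p.1) (tens (sone p.2.1) (ccE i p.2.2)))

/-- The rows of the action of `e_i` on the tensor cube. -/
def rrE3 (i : Fin 2) (p : Tri) : SV Tri :=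
  tens (rrE i p.1) (tens (sone p.2.1) (sone p.2.2)) ++
    (tens (sone p.1) (tens (rrE i p.2.1) (sone p.2.2)) ++
      tens (sone p.1) (tens (sone p.2.1) (rrE i p.2.2)))

/-- Decoding of a triple. -/
def decTri (k : ℕ) : Tri := (Fin.ofNat 8 (k / 64), Fin.ofNat 8 (k / 8), Fin.ofNat 8 k)

/-- The equation with a given code (`s` is the sign: `1` symmetric, `-1` antisymmetric). -/
def eqnRow (s : ℤ) (k : ℕ) : SV Tri :=
  if k < 1024 then rrE3 (Fin.ofNat 2 (k / 512)) (decTri k)
  else [(((decTri k).2.1, (decTri k).1, (decTri k).2.2), [1]), (decTri k, [-s])]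

/-- Digits in base `2 ^ 24`. -/
def digs : ℕ → ℕ → List ℕ
  | 0, _ => []
  | n + 1, k => if k = 0 then [] else (k % 16777216) :: digs n (k / 16777216)

/-- The linear combination of equations encoded by a list of terms. -/
def expand (s : ℤ) : List ℕ → SV Tri
  | [] => []
  | t :: l => scal [((t / 2048 : ℕ) : ℤ) - 512] (eqnRow s (t % 2048)) ++ expand s l

/-- The check of one certificate. -/
def certOK (s : ℤ) (x0 : Tri) (n : ℕ) : Bool :=
  match digs 64 n with
  | y :: d :: c :: l => decide ((d : ℤ) - 512 ≠ 0) &&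
      feqv (expand s l) [(decTri y, [(d : ℤ) - 512]), (x0, [(c : ℤ) - 512])]
  | _ => false

/-- The coordinate to which a certificate refers. -/
def certHead (n : ℕ) : Tri := decTri (n % 16777216)

theorem check_certS : certS.all (certOK 1 (7, 3, 0)) = true := by
  decide +kernel

theorem check_certA : certA.all (certOK (-1) (7, 4, 0)) = true := by
  decide +kernel

theorem check_coverS : ∀ a b c : Fin 8, (∀ i : Fin 2, wtD a i + wtD b i + wtD c i = 0) →
    (a, b, c) = (7, 3, 0) ∨ (a, b, c) ∈ certS.map certHead := by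
  decide +kernel

theorem check_coverA : ∀ a b c : Fin 8, (∀ i : Fin 2, wtD a i + wtD b i + wtD c i = 0) →
    (a, b, c) = (7, 4, 0) ∨ (a, b, c) ∈ certA.map certHead := by
  decide +kernel

theorem check_rrE : ∀ i : Fin 2, ∀ a b : Fin 8, coef (rrE i a) b = coef (ccE i b) a := by
  decide +kernel

theorem check_ccH : ∀ i : Fin 2, ∀ b : Fin 8, ccH i b = [(b, [wtD b i])] := by
  decide +kernel

theorem check_che : ∀ i j : Fin 2, ∀ b : Fin 8,
    eqv (app (ccH i) (ccE j b))
      (app (ccE j) (ccH i b) ++ scal [if i = j then 2 else -1] (ccE j b)) = true := by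
  decide +kernel

theorem check_chf : ∀ i j : Fin 2, ∀ b : Fin 8,
    eqv (app (ccH i) (ccF j b))
      (app (ccF j) (ccH i b) ++ scal [if i = j then -2 else 1] (ccF j b)) = true := by
  decide +kernel

theorem check_cef : ∀ i j : Fin 2, ∀ b : Fin 8,
    eqv (app (ccE i) (ccF j b))
      (app (ccF j) (ccE i b) ++ (if i = j then ccH i b else [])) = true := by
  decide +kernel

theorem check_cserreE : ∀ i j : Fin 2, i ≠ j → ∀ b : Fin 8,
    eqv (app (ccE i) (app (ccE i) (ccE j b)) ++ app (ccE j) (app (ccE i) (ccE i b)))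
      (app (ccE i) (app (ccE j) (ccE i b)) ++ app (ccE i) (app (ccE j) (ccE i b))) = true := by
  decide +kernel

theorem check_cserreF : ∀ i j : Fin 2, i ≠ j → ∀ b : Fin 8,
    eqv (app (ccF i) (app (ccF i) (ccF j b)) ++ app (ccF j) (app (ccF i) (ccF i b)))
      (app (ccF i) (app (ccF j) (ccF i b)) ++ app (ccF i) (app (ccF j) (ccF i b))) = true := by
  decide +kernel

theorem check_cS_E : ∀ i : Fin 2, isZ (app (ccE3 i) cS) = true := by
  decide +kernel

theorem check_cA_E : ∀ i : Fin 2, isZ (app (ccE3 i) cA) = true := by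
  decide +kernel

theorem check_cS_wt : ∀ a b c : Fin 8, coef cS (a, b, c) = [] ∨
    ∀ i : Fin 2, wtD a i + wtD b i + wtD c i = 0 := by
  decide +kernel

theorem check_cA_wt : ∀ a b c : Fin 8, coef cA (a, b, c) = [] ∨
    ∀ i : Fin 2, wtD a i + wtD b i + wtD c i = 0 := by
  decide +kernel

theorem check_cS_sym : ∀ a b c : Fin 8, coef cS (b, a, c) = coef cS (a, b, c) := by
  decide +kernel

theorem check_cA_sym : ∀ a b c : Fin 8, coef cA (b, a, c) = psmul (-1) (coef cA (a, b, c)) := by
  decide +kernel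

theorem check_cS_ne : ∃ z : ℤ, z ≠ 0 ∧ coef cS (7, 3, 0) = [z] :=
  ⟨(coef cS (7, 3, 0)).headD 0, by decide +kernel, by decide +kernel⟩

theorem check_cA_ne : ∃ z : ℤ, z ≠ 0 ∧ coef cA (7, 4, 0) = [z] :=
  ⟨(coef cA (7, 4, 0)).headD 0, by decide +kernel, by decide +kernel⟩

end Pool.Agent.H19.QCube
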