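import Pool.Agent.H19.QCube.Sparse

/-!
# The data: the 8-dimensional module of `U_q(sl₃)`, its braiding, invariant tensors

Basis: `0 = x_θ`, `1 = x_{α₁}`, `2 = x_{α₂}`, `3 = h₁`, `4 = h₂`, `5 = x_{-α₁}`, `6 = x_{-α₂}`,
`7 = x_{-θ}`.  All matrices are multiplied by a power of `q` so as to have polynomial entries.
-/

set_option autoImplicit false

namespace Pool.Agent.H19.QCube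

/-- The weights. -/
def wtD : Fin 8 → Fin 2 → ℤ
  | 0 => ![1, 1]
  | 1 => ![2, -1]
  | 2 => ![-1, 2]
  | 3 => ![0, 0]
  | 4 => ![0, 0]
  | 5 => ![-2, 1]
  | 6 => ![1, -2]
  | 7 => ![-1, -1]

/-- The columns of `q E_i`. -/
def colE (i : Fin 2) (b : Fin 8) : List (Fin 8 × List ℤ) :=
  match i, b with
  | 0, 0 => []
  | 0, 1 => []
  | 0, 2 => [(0, [0, 1])]
  | 0, 3 => [(1, [1, 0, 1])]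
  | 0, 4 => [(1, [0, 1])]
  | 0, 5 => [(3, [0, 1])]
  | 0, 6 => []
  | 0, 7 => [(6, [0, 1])]
  | 1, 0 => []
  | 1, 1 => [(0, [0, 1])]
  | 1, 2 => []
  | 1, 3 => [(2, [0, 1])]
  | 1, 4 => [(2, [1, 0, 1])]
  | 1, 5 => []
  | 1, 6 => [(4, [0, 1])]
  | 1, 7 => [(5, [0, 1])]

/-- The columns of `q F_i`. -/
def colF (i : Fin 2) (b : Fin 8) : List (Fin 8 × List ℤ) :=
  match i, b with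
  | 0, 0 => [(2, [0, 1])]
  | 0, 1 => [(3, [0, 1])]
  | 0, 2 => []
  | 0, 3 => [(5, [1, 0, 1])]
  | 0, 4 => [(5, [0, 1])]
  | 0, 5 => []
  | 0, 6 => [(7, [0, 1])]
  | 0, 7 => []
  | 1, 0 => [(1, [0, 1])]
  | 1, 1 => []
  | 1, 2 => [(4, [0, 1])]
  | 1, 3 => [(6, [0, 1])]
  | 1, 4 => [(6, [1, 0, 1])]
  | 1, 5 => [(7, [0, 1])]
  | 1, 6 => []
  | 1, 7 => []

/-- The columns of `q² K_i`. -/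
def colK (i : Fin 2) (b : Fin 8) : List (Fin 8 × List ℤ) :=
  match i, b with
  | 0, 0 => [(0, [0, 0, 0, 1])]
  | 0, 1 => [(1, [0, 0, 0, 0, 1])]
  | 0, 2 => [(2, [0, 1])]
  | 0, 3 => [(3, [0, 0, 1])]
  | 0, 4 => [(4, [0, 0, 1])]
  | 0, 5 => [(5, [1])]
  | 0, 6 => [(6, [0, 0, 0, 1])]
  | 0, 7 => [(7, [0, 1])]
  | 1, 0 => [(0, [0, 0, 0, 1])]
  | 1, 1 => [(1, [0, 1])]
  | 1, 2 => [(2, [0, 0, 0, 0, 1])]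
  | 1, 3 => [(3, [0, 0, 1])]
  | 1, 4 => [(4, [0, 0, 1])]
  | 1, 5 => [(5, [0, 0, 0, 1])]
  | 1, 6 => [(6, [1])]
  | 1, 7 => [(7, [0, 1])]

/-- The columns of `q² K_i⁻¹`. -/
def colKi (i : Fin 2) (b : Fin 8) : List (Fin 8 × List ℤ) :=
  match i, b with
  | 0, 0 => [(0, [0, 1])]
  | 0, 1 => [(1, [1])]
  | 0, 2 => [(2, [0, 0, 0, 1])]
  | 0, 3 => [(3, [0, 0, 1])]
  | 0, 4 => [(4, [0, 0, 1])]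
  | 0, 5 => [(5, [0, 0, 0, 0, 1])]
  | 0, 6 => [(6, [0, 1])]
  | 0, 7 => [(7, [0, 0, 0, 1])]
  | 1, 0 => [(0, [0, 1])]
  | 1, 1 => [(1, [0, 0, 0, 1])]
  | 1, 2 => [(2, [1])]
  | 1, 3 => [(3, [0, 0, 1])]
  | 1, 4 => [(4, [0, 0, 1])]
  | 1, 5 => [(5, [0, 1])]
  | 1, 6 => [(6, [0, 0, 0, 0, 1])]
  | 1, 7 => [(7, [0, 0, 0, 1])]

/-- The columns of `q⁶ R̂`. -/
def colR (p : Fin 8 × Fin 8) : List ((Fin 8 × Fin 8) × List ℤ) :=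
  match p with
  | (0, 0) => [((0, 0), [0, 0, 0, 0, 0, 0, 0, 0, 1])]
  | (0, 1) => [((1, 0), [0, 0, 0, 0, 0, 0, 0, 1])]
  | (0, 2) => [((2, 0), [0, 0, 0, 0, 0, 0, 0, 1])]
  | (0, 3) => [((3, 0), [0, 0, 0, 0, 0, 0, 1])]
  | (0, 4) => [((4, 0), [0, 0, 0, 0, 0, 0, 1])]
  | (0, 5) => [((5, 0), [0, 0, 0, 0, 0, 1])]
  | (0, 6) => [((6, 0), [0, 0, 0, 0, 0, 1])]
  | (0, 7) => [((7, 0), [0, 0, 0, 0, 1])]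
  | (1, 0) => [((0, 1), [0, 0, 0, 0, 0, 0, 0, 1]), ((1, 0), [0, 0, 0, 0, 0, 0, -1, 0, 1])]
  | (1, 1) => [((1, 1), [0, 0, 0, 0, 0, 0, 0, 0, 1])]
  | (1, 2) => [((2, 1), [0, 0, 0, 0, 0, 1]), ((4, 0), [0, 0, 0, 0, 0, -1, 0, 1])]
  | (1, 3) => [((3, 1), [0, 0, 0, 0, 0, 0, 1]), ((6, 0), [0, 0, 0, 0, -1, 0, 1])]
  | (1, 4) => [((4, 1), [0, 0, 0, 0, 0, 0, 1]), ((6, 0), [0, 0, 0, -1, 0, 0, 0, 1])]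
  | (1, 5) => [((5, 1), [0, 0, 0, 0, 1]), ((7, 0), [0, 0, 0, -1, 0, 1])]
  | (1, 6) => [((6, 1), [0, 0, 0, 0, 0, 0, 0, 1])]
  | (1, 7) => [((7, 1), [0, 0, 0, 0, 0, 1])]
  | (2, 0) => [((0, 2), [0, 0, 0, 0, 0, 0, 0, 1]), ((2, 0), [0, 0, 0, 0, 0, 0, -1, 0, 1])]
  | (2, 1) => [((1, 2), [0, 0, 0, 0, 0, 1]), ((3, 0), [0, 0, 0, 0, 0, -1, 0, 1])]
  | (2, 2) => [((2, 2), [0, 0, 0, 0, 0, 0, 0, 0, 1])]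
  | (2, 3) => [((3, 2), [0, 0, 0, 0, 0, 0, 1]), ((5, 0), [0, 0, 0, -1, 0, 0, 0, 1])]
  | (2, 4) => [((4, 2), [0, 0, 0, 0, 0, 0, 1]), ((5, 0), [0, 0, 0, 0, -1, 0, 1])]
  | (2, 5) => [((5, 2), [0, 0, 0, 0, 0, 0, 0, 1])]
  | (2, 6) => [((6, 2), [0, 0, 0, 0, 1]), ((7, 0), [0, 0, 0, -1, 0, 1])]
  | (2, 7) => [((7, 2), [0, 0, 0, 0, 0, 1])]
  | (3, 0) => [((0, 3), [0, 0, 0, 0, 0, 0, 1]), ((1, 2), [0, 0, 0, 0, -1, 0, 1]), ((2, 1), [0, 0, 0, -1, 0, 0, 0, 1]), ((3, 0), [0, 0, 0, 0, 0, 0, -1, 0, 1]), ((4, 0), [0, 0, 0, 1, 0, -1])]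
  | (3, 1) => [((1, 3), [0, 0, 0, 0, 0, 0, 1]), ((3, 1), [0, 0, 0, 0, -1, 0, 0, 0, 1]), ((6, 0), [0, 0, 1, 0, -1])]
  | (3, 2) => [((2, 3), [0, 0, 0, 0, 0, 0, 1]), ((4, 2), [0, 0, 0, 0, 0, -1, 0, 1]), ((5, 0), [0, 0, 0, 0, 0, -1, 0, 1])]
  | (3, 3) => [((3, 3), [0, 0, 0, 0, 0, 0, 1]), ((5, 1), [0, -1, 0, -1, 0, 1, 0, 1]), ((6, 2), [0, 0, 0, -1, 0, 1]), ((7, 0), [1, 0, 0, 0, -2, 0, 1])]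
  | (3, 4) => [((4, 3), [0, 0, 0, 0, 0, 0, 1]), ((5, 1), [0, 0, -1, 0, 0, 0, 1]), ((6, 2), [0, 0, -1, 0, 0, 0, 1]), ((7, 0), [0, 1, 0, -2, 0, 0, 0, 1])]
  | (3, 5) => [((5, 3), [0, 0, 0, 0, 0, 0, 1]), ((7, 2), [0, 0, 0, 0, -1, 0, 1])]
  | (3, 6) => [((6, 3), [0, 0, 0, 0, 0, 0, 1]), ((7, 1), [0, 0, 0, -1, 0, 0, 0, 1])]
  | (3, 7) => [((7, 3), [0, 0, 0, 0, 0, 0, 1])]
  | (4, 0) => [((0, 4), [0, 0, 0, 0, 0, 0, 1]), ((1, 2), [0, 0, 0, -1, 0, 0, 0, 1]), ((2, 1), [0, 0, 0, 0, -1, 0, 1]), ((3, 0), [0, 0, 0, 1, 0, -1]), ((4, 0), [0, 0, 0, 0, 0, 0, -1, 0, 1])]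
  | (4, 1) => [((1, 4), [0, 0, 0, 0, 0, 0, 1]), ((3, 1), [0, 0, 0, 0, 0, -1, 0, 1]), ((6, 0), [0, 0, 0, 0, 0, -1, 0, 1])]
  | (4, 2) => [((2, 4), [0, 0, 0, 0, 0, 0, 1]), ((4, 2), [0, 0, 0, 0, -1, 0, 0, 0, 1]), ((5, 0), [0, 0, 1, 0, -1])]
  | (4, 3) => [((3, 4), [0, 0, 0, 0, 0, 0, 1]), ((5, 1), [0, 0, -1, 0, 0, 0, 1]), ((6, 2), [0, 0, -1, 0, 0, 0, 1]), ((7, 0), [0, 1, 0, -2, 0, 0, 0, 1])]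
  | (4, 4) => [((4, 4), [0, 0, 0, 0, 0, 0, 1]), ((5, 1), [0, 0, 0, -1, 0, 1]), ((6, 2), [0, -1, 0, -1, 0, 1, 0, 1]), ((7, 0), [1, 0, 0, 0, -2, 0, 1])]
  | (4, 5) => [((5, 4), [0, 0, 0, 0, 0, 0, 1]), ((7, 2), [0, 0, 0, -1, 0, 0, 0, 1])]
  | (4, 6) => [((6, 4), [0, 0, 0, 0, 0, 0, 1]), ((7, 1), [0, 0, 0, 0, -1, 0, 1])]
  | (4, 7) => [((7, 4), [0, 0, 0, 0, 0, 0, 1])]
  | (5, 0) => [((0, 5), [0, 0, 0, 0, 0, 1]), ((2, 3), [0, 0, 0, 0, 0, -1, 0, 1]), ((3, 2), [0, 0, 0, 0, 0, -1, 0, 1]), ((4, 2), [0, 0, 0, 0, 1, 0, -1]), ((5, 0), [0, 0, 0, 0, 1, 0, -2, 0, 1])]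
  | (5, 1) => [((1, 5), [0, 0, 0, 0, 1]), ((3, 3), [0, 0, 0, 0, 0, -1, 0, 1]), ((5, 1), [0, 0, 1, 0, -1, 0, -1, 0, 1]), ((6, 2), [0, 0, 1, 0, -1]), ((7, 0), [0, -1, 0, 2, 0, -1])]
  | (5, 2) => [((2, 5), [0, 0, 0, 0, 0, 0, 0, 1]), ((5, 2), [0, 0, 0, 0, 0, 0, -1, 0, 1])]
  | (5, 3) => [((3, 5), [0, 0, 0, 0, 0, 0, 1]), ((5, 3), [0, 0, 0, 0, -1, 0, 0, 0, 1]), ((7, 2), [0, 0, 1, 0, -1])]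
  | (5, 4) => [((4, 5), [0, 0, 0, 0, 0, 0, 1]), ((5, 3), [0, 0, 0, 0, 0, -1, 0, 1]), ((7, 2), [0, 0, 0, 0, 0, -1, 0, 1])]
  | (5, 5) => [((5, 5), [0, 0, 0, 0, 0, 0, 0, 0, 1])]
  | (5, 6) => [((6, 5), [0, 0, 0, 0, 0, 1]), ((7, 3), [0, 0, 0, 0, 0, -1, 0, 1])]
  | (5, 7) => [((7, 5), [0, 0, 0, 0, 0, 0, 0, 1])]
  | (6, 0) => [((0, 6), [0, 0, 0, 0, 0, 1]), ((1, 4), [0, 0, 0, 0, 0, -1, 0, 1]), ((3, 1), [0, 0, 0, 0, 1, 0, -1]), ((4, 1), [0, 0, 0, 0, 0, -1, 0, 1]), ((6, 0), [0, 0, 0, 0, 1, 0, -2, 0, 1])]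
  | (6, 1) => [((1, 6), [0, 0, 0, 0, 0, 0, 0, 1]), ((6, 1), [0, 0, 0, 0, 0, 0, -1, 0, 1])]
  | (6, 2) => [((2, 6), [0, 0, 0, 0, 1]), ((4, 4), [0, 0, 0, 0, 0, -1, 0, 1]), ((5, 1), [0, 0, 1, 0, -1]), ((6, 2), [0, 0, 1, 0, -1, 0, -1, 0, 1]), ((7, 0), [0, -1, 0, 2, 0, -1])]
  | (6, 3) => [((3, 6), [0, 0, 0, 0, 0, 0, 1]), ((6, 4), [0, 0, 0, 0, 0, -1, 0, 1]), ((7, 1), [0, 0, 0, 0, 0, -1, 0, 1])]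
  | (6, 4) => [((4, 6), [0, 0, 0, 0, 0, 0, 1]), ((6, 4), [0, 0, 0, 0, -1, 0, 0, 0, 1]), ((7, 1), [0, 0, 1, 0, -1])]
  | (6, 5) => [((5, 6), [0, 0, 0, 0, 0, 1]), ((7, 4), [0, 0, 0, 0, 0, -1, 0, 1])]
  | (6, 6) => [((6, 6), [0, 0, 0, 0, 0, 0, 0, 0, 1])]
  | (6, 7) => [((7, 6), [0, 0, 0, 0, 0, 0, 0, 1])]
  | (7, 0) => [((0, 7), [0, 0, 0, 0, 1]), ((1, 5), [0, 0, 0, -1, 0, 1]), ((2, 6), [0, 0, 0, -1, 0, 1]), ((3, 3), [0, 0, 0, 0, 1, 0, -1]), ((3, 4), [0, 0, 0, 0, 0, -1, 0, 1]), ((4, 3), [0, 0, 0, 0, 0, -1, 0, 1]), ((4, 4), [0, 0, 0, 0, 1, 0, -1]), ((5, 1), [0, -1, 0, 2, 0, -1]), ((6, 2), [0, -1, 0, 2, 0, -1]), ((7, 0), [1, 0, -2, 0, 2, 0, -2, 0, 1])]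
  | (7, 1) => [((1, 7), [0, 0, 0, 0, 0, 1]), ((3, 6), [0, 0, 0, 0, 0, -1, 0, 1]), ((6, 3), [0, 0, 0, 0, 0, -1, 0, 1]), ((6, 4), [0, 0, 0, 0, 1, 0, -1]), ((7, 1), [0, 0, 0, 0, 1, 0, -2, 0, 1])]
  | (7, 2) => [((2, 7), [0, 0, 0, 0, 0, 1]), ((4, 5), [0, 0, 0, 0, 0, -1, 0, 1]), ((5, 3), [0, 0, 0, 0, 1, 0, -1]), ((5, 4), [0, 0, 0, 0, 0, -1, 0, 1]), ((7, 2), [0, 0, 0, 0, 1, 0, -2, 0, 1])]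
  | (7, 3) => [((3, 7), [0, 0, 0, 0, 0, 0, 1]), ((5, 6), [0, 0, 0, -1, 0, 0, 0, 1]), ((6, 5), [0, 0, 0, 0, -1, 0, 1]), ((7, 3), [0, 0, 0, 0, 0, 0, -1, 0, 1]), ((7, 4), [0, 0, 0, 1, 0, -1])]
  | (7, 4) => [((4, 7), [0, 0, 0, 0, 0, 0, 1]), ((5, 6), [0, 0, 0, 0, -1, 0, 1]), ((6, 5), [0, 0, 0, -1, 0, 0, 0, 1]), ((7, 3), [0, 0, 0, 1, 0, -1]), ((7, 4), [0, 0, 0, 0, 0, 0, -1, 0, 1])]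
  | (7, 5) => [((5, 7), [0, 0, 0, 0, 0, 0, 0, 1]), ((7, 5), [0, 0, 0, 0, 0, 0, -1, 0, 1])]
  | (7, 6) => [((6, 7), [0, 0, 0, 0, 0, 0, 0, 1]), ((7, 6), [0, 0, 0, 0, 0, 0, -1, 0, 1])]
  | (7, 7) => [((7, 7), [0, 0, 0, 0, 0, 0, 0, 0, 1])]

/-- The invariant tensor in `S_q³V`. -/
def tS : List ((Fin 8 × Fin 8 × Fin 8) × List ℤ) :=
  [((0, 3, 7), [0, 0, 0, 0, 0, 0, 0, 1, 1, 1]),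
   ((0, 4, 7), [0, 0, 0, 0, 0, 0, 0, 1, 1, 1]),
   ((0, 5, 6), [0, 0, 0, 0, -1, -2, -3, -2, -1]),
   ((0, 6, 5), [0, 0, 0, 0, -1, -2, -3, -2, -1]),
   ((0, 7, 3), [0, 0, 0, 0, 1, 1, 1]),
   ((0, 7, 4), [0, 0, 0, 0, 1, 1, 1]),
   ((1, 2, 7), [0, 0, 0, 0, -1, -2, -3, -2, -1]),
   ((1, 3, 5), [0, 0, 0, 0, 0, 0, -1, -1, -1]),
   ((1, 4, 5), [0, 0, 0, 0, 1, 2, 2, 1]),
   ((1, 5, 3), [0, 0, 0, -1, -1, -1]),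
   ((1, 5, 4), [0, 0, 0, 0, 1, 2, 2, 1]),
   ((1, 7, 2), [0, 0, -1, -2, -3, -2, -1]),
   ((2, 1, 7), [0, 0, 0, 0, -1, -2, -3, -2, -1]),
   ((2, 3, 6), [0, 0, 0, 0, 1, 2, 2, 1]),
   ((2, 4, 6), [0, 0, 0, 0, 0, 0, -1, -1, -1]),
   ((2, 6, 3), [0, 0, 0, 0, 1, 2, 2, 1]),
   ((2, 6, 4), [0, 0, 0, -1, -1, -1]),
   ((2, 7, 1), [0, 0, -1, -2, -3, -2, -1]),
   ((3, 0, 7), [0, 0, 0, 0, 1, 1, 1]),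
   ((3, 1, 5), [0, 0, 0, -1, -1, -1]),
   ((3, 2, 6), [0, 0, 0, 0, 1, 2, 2, 1]),
   ((3, 3, 3), [0, 0, 0, 0, 1, 1, 1, 1]),
   ((3, 3, 4), [0, 0, 0, 0, 0, -1, -1]),
   ((3, 4, 3), [0, 0, 0, 0, 0, -1, -1]),
   ((3, 4, 4), [0, 0, 0, 0, 0, -1, -1]),
   ((3, 5, 1), [0, 0, 0, 0, -1, -1, -1]),
   ((3, 6, 2), [0, 0, 1, 2, 2, 1]),
   ((3, 7, 0), [0, 0, 0, 1, 1, 1]),
   ((4, 0, 7), [0, 0, 0, 0, 1, 1, 1]),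
   ((4, 1, 5), [0, 0, 0, 0, 1, 2, 2, 1]),
   ((4, 2, 6), [0, 0, 0, -1, -1, -1]),
   ((4, 3, 3), [0, 0, 0, 0, 0, -1, -1]),
   ((4, 3, 4), [0, 0, 0, 0, 0, -1, -1]),
   ((4, 4, 3), [0, 0, 0, 0, 0, -1, -1]),
   ((4, 4, 4), [0, 0, 0, 0, 1, 1, 1, 1]),
   ((4, 5, 1), [0, 0, 1, 2, 2, 1]),
   ((4, 6, 2), [0, 0, 0, 0, -1, -1, -1]),
   ((4, 7, 0), [0, 0, 0, 1, 1, 1]),
   ((5, 0, 6), [0, 0, -1, -2, -3, -2, -1]),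
   ((5, 1, 3), [0, 0, 0, 0, -1, -1, -1]),
   ((5, 1, 4), [0, 0, 1, 2, 2, 1]),
   ((5, 3, 1), [0, -1, -1, -1]),
   ((5, 4, 1), [0, 0, 1, 2, 2, 1]),
   ((5, 6, 0), [-1, -2, -3, -2, -1]),
   ((6, 0, 5), [0, 0, -1, -2, -3, -2, -1]),
   ((6, 2, 3), [0, 0, 1, 2, 2, 1]),
   ((6, 2, 4), [0, 0, 0, 0, -1, -1, -1]),
   ((6, 3, 2), [0, 0, 1, 2, 2, 1]),
   ((6, 4, 2), [0, -1, -1, -1]),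
   ((6, 5, 0), [-1, -2, -3, -2, -1]),
   ((7, 0, 3), [0, 0, 0, 1, 1, 1]),
   ((7, 0, 4), [0, 0, 0, 1, 1, 1]),
   ((7, 1, 2), [-1, -2, -3, -2, -1]),
   ((7, 2, 1), [-1, -2, -3, -2, -1]),
   ((7, 3, 0), [1, 1, 1]),
   ((7, 4, 0), [1, 1, 1])]

/-- The invariant tensor in `Λ_q³V`. -/
def tA : List ((Fin 8 × Fin 8 × Fin 8) × List ℤ) :=
  [((0, 3, 7), [0, 0, 0, 0, 0, 0, 0, 1, -1, 1]),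
   ((0, 4, 7), [0, 0, 0, 0, 0, 0, 0, -1, 1, -1]),
   ((0, 5, 6), [0, 0, 0, 0, -1, 2, -3, 2, -1]),
   ((0, 6, 5), [0, 0, 0, 0, 1, -2, 3, -2, 1]),
   ((0, 7, 3), [0, 0, 0, 0, -1, 1, -1]),
   ((0, 7, 4), [0, 0, 0, 0, 1, -1, 1]),
   ((1, 2, 7), [0, 0, 0, 0, 1, -2, 3, -2, 1]),
   ((1, 3, 5), [0, 0, 0, 0, 0, 0, -1, 1, -1]),
   ((1, 4, 5), [0, 0, 0, 0, -1, 2, -2, 1]),
   ((1, 5, 3), [0, 0, 0, 1, -1, 1]),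
   ((1, 5, 4), [0, 0, 0, 0, -1, 2, -2, 1]),
   ((1, 7, 2), [0, 0, -1, 2, -3, 2, -1]),
   ((2, 1, 7), [0, 0, 0, 0, -1, 2, -3, 2, -1]),
   ((2, 3, 6), [0, 0, 0, 0, 1, -2, 2, -1]),
   ((2, 4, 6), [0, 0, 0, 0, 0, 0, 1, -1, 1]),
   ((2, 6, 3), [0, 0, 0, 0, 1, -2, 2, -1]),
   ((2, 6, 4), [0, 0, 0, -1, 1, -1]),
   ((2, 7, 1), [0, 0, 1, -2, 3, -2, 1]),
   ((3, 0, 7), [0, 0, 0, 0, -1, 1, -1]),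
   ((3, 1, 5), [0, 0, 0, 1, -1, 1]),
   ((3, 2, 6), [0, 0, 0, 0, 1, -2, 2, -1]),
   ((3, 3, 3), [0, 0, 0, 0, -1, 1, -1, 1]),
   ((3, 3, 4), [0, 0, 0, 0, 0, 1, -1]),
   ((3, 4, 3), [0, 0, 0, 0, 0, 1, -1]),
   ((3, 4, 4), [0, 0, 0, 0, 0, -1, 1]),
   ((3, 5, 1), [0, 0, 0, 0, -1, 1, -1]),
   ((3, 6, 2), [0, 0, 1, -2, 2, -1]),
   ((3, 7, 0), [0, 0, 0, 1, -1, 1]),
   ((4, 0, 7), [0, 0, 0, 0, 1, -1, 1]),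
   ((4, 1, 5), [0, 0, 0, 0, -1, 2, -2, 1]),
   ((4, 2, 6), [0, 0, 0, -1, 1, -1]),
   ((4, 3, 3), [0, 0, 0, 0, 0, 1, -1]),
   ((4, 3, 4), [0, 0, 0, 0, 0, -1, 1]),
   ((4, 4, 3), [0, 0, 0, 0, 0, -1, 1]),
   ((4, 4, 4), [0, 0, 0, 0, 1, -1, 1, -1]),
   ((4, 5, 1), [0, 0, -1, 2, -2, 1]),
   ((4, 6, 2), [0, 0, 0, 0, 1, -1, 1]),
   ((4, 7, 0), [0, 0, 0, -1, 1, -1]),
   ((5, 0, 6), [0, 0, 1, -2, 3, -2, 1]),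
   ((5, 1, 3), [0, 0, 0, 0, -1, 1, -1]),
   ((5, 1, 4), [0, 0, -1, 2, -2, 1]),
   ((5, 3, 1), [0, 1, -1, 1]),
   ((5, 4, 1), [0, 0, -1, 2, -2, 1]),
   ((5, 6, 0), [-1, 2, -3, 2, -1]),
   ((6, 0, 5), [0, 0, -1, 2, -3, 2, -1]),
   ((6, 2, 3), [0, 0, 1, -2, 2, -1]),
   ((6, 2, 4), [0, 0, 0, 0, 1, -1, 1]),
   ((6, 3, 2), [0, 0, 1, -2, 2, -1]),
   ((6, 4, 2), [0, -1, 1, -1]),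
   ((6, 5, 0), [1, -2, 3, -2, 1]),
   ((7, 0, 3), [0, 0, 0, 1, -1, 1]),
   ((7, 0, 4), [0, 0, 0, -1, 1, -1]),
   ((7, 1, 2), [1, -2, 3, -2, 1]),
   ((7, 2, 1), [-1, 2, -3, 2, -1]),
   ((7, 3, 0), [-1, 1, -1]),
   ((7, 4, 0), [1, -1, 1])]

end Pool.Agent.H19.QCube
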