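import Mathlib

/-!
# Sparse vectors and matrices with polynomial entries, and their evaluation
-/

set_option autoImplicit false

namespace Pool.Agent.H19.QCube

open Matrix Kronecker

/-- Integer polynomials in one variable, as lists of coefficients. -/
abbrev Poly := List ℤ

/-- Evaluation of a polynomial. -/
noncomputable def ev (q : ℂ) : Poly → ℂ
  | [] => 0
  | a :: l => a + q * ev q l

/-- Sum of polynomials. -/
def padd : Poly → Poly → Poly
  | [], m => m
  | a :: l, [] => a :: l
  | a :: l, b :: m => (a + b) :: padd l m

/-- Integer multiple of a polynomial. -/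
def psmul (c : ℤ) : Poly → Poly
  | [] => []
  | a :: l => (c * a) :: psmul c l

/-- Product of polynomials. -/
def pmul : Poly → Poly → Poly
  | [], _ => []
  | a :: l, m => padd (psmul a m) (0 :: pmul l m)

/-- Test whether all coefficients vanish. -/
def pzero : Poly → Bool
  | [] => true
  | a :: l => decide (a = 0) && pzero l

theorem ev_padd (q : ℂ) : ∀ l m : Poly, ev q (padd l m) = ev q l + ev q m
  | [], m => by simp [padd, ev]
  | a :: l, [] => by simp [padd, ev]
  | a :: l, b :: m => by
    simp only [padd, ev, ev_padd q l m]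
    push_cast
    ring

theorem ev_psmul (q : ℂ) (c : ℤ) : ∀ l : Poly, ev q (psmul c l) = c * ev q l
  | [] => by simp [psmul, ev]
  | a :: l => by
    simp only [psmul, ev, ev_psmul q c l]
    push_cast
    ring

theorem ev_pmul (q : ℂ) : ∀ l m : Poly, ev q (pmul l m) = ev q l * ev q m
  | [], m => by simp [pmul, ev]
  | a :: l, m => by
    simp only [pmul, ev, ev_padd, ev_psmul, ev_pmul q l m]
    push_cast
    ring

theorem ev_of_pzero (q : ℂ) : ∀ l : Poly, pzero l = true → ev q l = 0
  | [], _ => rfl
  | a :: l, h => by
    simp only [pzero, Bool.and_eq_true, decide_eq_true_eq] at h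
    simp only [ev, h.1, ev_of_pzero q l h.2]
    simp

/-- Sparse vectors. -/
abbrev SV (I : Type) := List (I × Poly)

variable {I J L : Type} [DecidableEq I] [DecidableEq J] [DecidableEq L]

/-- The vector represented by a sparse vector. -/
noncomputable def sem (q : ℂ) : SV I → I → ℂ
  | [], _ => 0
  | x :: v, i => (if x.1 = i then ev q x.2 else 0) + sem q v i

/-- A coordinate of a sparse vector. -/
def coef : SV I → I → Poly
  | [], _ => []
  | x :: v, i => if x.1 = i then padd x.2 (coef v i) else coef v i

theorem sem_eq_ev_coef (q : ℂ) (i : I) : ∀ v : SV I, sem q v i = ev q (coef v i)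
  | [] => rfl
  | x :: v => by
    simp only [sem, coef, sem_eq_ev_coef q i v]
    split_ifs
    · rw [ev_padd]
    · simp

theorem sem_append (q : ℂ) (w : SV I) (i : I) : ∀ v : SV I,
    sem q (v ++ w) i = sem q v i + sem q w i
  | [] => by simp [sem]
  | x :: v => by simp only [List.cons_append, sem, sem_append q w i v]; ring

/-- Test whether a sparse vector is zero. -/
def isZ (v : SV I) : Bool := v.all fun x => pzero (coef v x.1)

theorem coef_eq_nil_of_forall (i : I) : ∀ v : SV I, (∀ x ∈ v, x.1 ≠ i) → coef v i = []
  | [], _ => rfl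
  | x :: v, h => by
    have h1 : x.1 ≠ i := h x (by simp)
    simp only [coef, h1, if_false]
    exact coef_eq_nil_of_forall i v fun y hy => h y (by simp [hy])

theorem sem_eq_zero_of_isZ (q : ℂ) (v : SV I) (h : isZ v = true) (i : I) : sem q v i = 0 := by
  rw [sem_eq_ev_coef]
  by_cases hx : ∃ x ∈ v, x.1 = i
  · obtain ⟨x, hx, rfl⟩ := hx
    exact ev_of_pzero q _ (List.all_eq_true.1 h x hx)
  · push Not at hx
    rw [coef_eq_nil_of_forall i v hx]; rfl

/-- Multiplication of a sparse vector by a polynomial. -/
def scal (p : Poly) : SV I → SV I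
  | [] => []
  | x :: v => (x.1, pmul p x.2) :: scal p v

theorem sem_scal (q : ℂ) (p : Poly) (i : I) : ∀ v : SV I,
    sem q (scal p v) i = ev q p * sem q v i
  | [] => by simp [scal, sem]
  | x :: v => by
    simp only [scal, sem, sem_scal q p i v, ev_pmul]
    split_ifs <;> ring

/-- Test for equality of sparse vectors. -/
def eqv (v w : SV I) : Bool := isZ (v ++ scal [-1] w)

theorem sem_eq_of_eqv (q : ℂ) (v w : SV I) (h : eqv v w = true) (i : I) :
    sem q v i = sem q w i := by
  have h1 := sem_eq_zero_of_isZ q _ h i
  rw [sem_append, sem_scal] at h1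
  simp only [ev] at h1
  push_cast at h1
  linear_combination h1

/-- Application of a sparse matrix (given by its columns) to a sparse vector. -/
def app (M : I → SV J) : SV I → SV J
  | [] => []
  | x :: v => scal x.2 (M x.1) ++ app M v

/-- The matrix represented by a sparse matrix given by its columns. -/
noncomputable def mat (q : ℂ) (M : I → SV J) : Matrix J I ℂ := fun j i => sem q (M i) j

theorem mat_mulVec [Fintype I] (q : ℂ) (M : I → SV J) : ∀ v : SV I,
    mat q M *ᵥ sem q v = sem q (app M v)
  | [] => by
    ext j
    simp [mulVec, dotProduct, sem, app]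
  | x :: v => by
    have ih := mat_mulVec q M v
    ext j
    have ih' := congrFun ih j
    simp only [mulVec, dotProduct, mat] at ih' ⊢
    simp only [app, sem_append, sem_scal, sem, mul_add, Finset.sum_add_distrib, ih']
    congr 1
    rw [Finset.sum_eq_single x.1]
    · simp [mul_comm]
    · intro b _ hb
      simp [Ne.symm hb]
    · intro h; exact absurd (Finset.mem_univ _) h

theorem mat_mul [Fintype I] [Fintype J] (q : ℂ) (M : J → SV L) (N : I → SV J) :
    mat q M * mat q N = mat q (fun i => app M (N i)) := by
  ext l i
  have := congrFun (mat_mulVec q M (N i)) l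
  simpa [Matrix.mul_apply, mulVec, dotProduct, mat] using this

theorem mat_add (q : ℂ) (M N : I → SV J) :
    mat q M + mat q N = mat q (fun i => M i ++ N i) := by
  ext j i
  simp [mat, sem_append]

theorem mat_smul (q : ℂ) (p : Poly) (M : I → SV J) :
    ev q p • mat q M = mat q (fun i => scal p (M i)) := by
  ext j i
  simp [mat, sem_scal]

/-- The sparse identity matrix. -/
def sone (i : I) : SV I := [(i, [1])]

theorem mat_one (q : ℂ) : mat q (sone : I → SV I) = 1 := by
  ext j i
  simp only [mat, sone, sem, ev, Matrix.one_apply]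
  by_cases h : i = j
  · subst h; simp
  · have : j ≠ i := fun h' => h h'.symm
    simp [h, this]

/-- Tensor product of an indexed polynomial with a sparse vector. -/
def tens1 (x : I × Poly) : SV J → SV (I × J)
  | [] => []
  | y :: w => ((x.1, y.1), pmul x.2 y.2) :: tens1 x w

/-- Tensor product of sparse vectors. -/
def tens : SV I → SV J → SV (I × J)
  | [], _ => []
  | x :: v, w => tens1 x w ++ tens v w

theorem sem_tens1 (q : ℂ) (x : I × Poly) (i : I) (j : J) : ∀ w : SV J,
    sem q (tens1 x w) (i, j) = (if x.1 = i then ev q x.2 else 0) * sem q w j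
  | [] => by simp [tens1, sem]
  | y :: w => by
    simp only [tens1, sem, sem_tens1 q x i j w, ev_pmul, Prod.mk.injEq]
    by_cases h1 : x.1 = i <;> by_cases h2 : y.1 = j <;> simp [h1, h2] <;> ring

theorem sem_tens (q : ℂ) (i : I) (j : J) (w : SV J) : ∀ v : SV I,
    sem q (tens v w) (i, j) = sem q v i * sem q w j
  | [] => by simp [tens, sem]
  | x :: v => by
    simp only [tens, sem_append, sem, sem_tens1, sem_tens q i j w v]
    ring

theorem mat_kron {I' J' : Type} [DecidableEq I'] [DecidableEq J'] (q : ℂ) (M : I → SV J)
    (N : I' → SV J') :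
    mat q M ⊗ₖ mat q N = mat q (fun p : I × I' => tens (M p.1) (N p.2)) := by
  ext ⟨j, j'⟩ ⟨i, i'⟩
  simp [mat, sem_tens, kroneckerMap_apply]

theorem mat_ext (q : ℂ) (M N : I → SV J) (h : ∀ i, eqv (M i) (N i) = true) :
    mat q M = mat q N := by
  ext j i
  exact sem_eq_of_eqv q _ _ (h i) j

end Pool.Agent.H19.QCube
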