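import Pool.Agent.H19.QCube.ClassicalData
import Pool.Agent.H19.QCube.Sparse

/-!
# A fast test for the vanishing of sparse vectors with constant entries
-/

set_option autoImplicit false

namespace Pool.Agent.H19.QCube

/-- Triples of basis indices. -/
abbrev Tri := Fin 8 × Fin 8 × Fin 8

/-- Position of a coordinate. -/
def cpos (x : Tri) : ℕ := x.1.val * 64 + (x.2.1.val * 8 + x.2.2.val)

theorem cpos_lt (x : Tri) : cpos x < 512 := by
  unfold cpos
  omega

theorem cpos_inj {x y : Tri} (h : cpos x = cpos y) : x = y := by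
  obtain ⟨a, b, c⟩ := x
  obtain ⟨a', b', c'⟩ := y
  simp only [cpos] at h
  have h1 : a = a' := Fin.ext (by omega)
  have h2 : b = b' := Fin.ext (by omega)
  have h3 : c = c' := Fin.ext (by omega)
  rw [h1, h2, h3]

/-- The constant coefficient. -/
def cst : Poly → ℤ
  | [] => 0
  | a :: _ => a

/-- Test for constancy. -/
def isCst : Poly → Bool
  | [] => true
  | _ :: l => l.isEmpty

theorem ev_isCst (q : ℂ) (p : Poly) (h : isCst p = true) : ev q p = cst p := by
  match p, h with
  | [], _ => simp [ev, cst]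
  | [a], _ => simp [ev, cst]

/-- Encoding as one integer, and bound for the entries. -/
def enc : SV Tri → ℤ
  | [] => 0
  | x :: v => Int.add (Int.mul (cst x.2) (Int.ofNat (Nat.pow 65536 (cpos x.1)))) (enc v)

/-- Bound for the entries. -/
def bnd : SV Tri → ℕ
  | [] => 0
  | x :: v => Nat.add (cst x.2).natAbs (bnd v)

/-- All entries are constant. -/
def allCst : SV Tri → Bool
  | [] => true
  | x :: v => isCst x.2 && allCst v

/-- The test. -/
def fastZ (v : SV Tri) : Bool :=
  allCst v && (decide (enc v = 0) && Nat.ble (bnd v) 65535)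

/-- Coordinate by position. -/
def fpos : SV Tri → ℕ → ℤ
  | [], _ => 0
  | x :: v, n => (if cpos x.1 = n then cst x.2 else 0) + fpos v n

theorem fpos_le (n : ℕ) : ∀ v : SV Tri, |fpos v n| ≤ (bnd v : ℤ)
  | [] => by simp [fpos, bnd]
  | x :: v => by
    have ih := fpos_le n v
    have e : ((bnd (x :: v) : ℕ) : ℤ) = |cst x.2| + (bnd v : ℤ) := by
      simp only [bnd, Nat.add_eq, Nat.cast_add, Int.natCast_natAbs]
    rw [e]
    simp only [fpos]
    refine (abs_add_le _ _).trans (add_le_add ?_ ih)
    split_ifs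
    · exact le_rfl
    · simp

theorem enc_eq : ∀ v : SV Tri, enc v = ∑ n ∈ Finset.range 512, fpos v n * 65536 ^ n
  | [] => by simp [enc, fpos]
  | x :: v => by
    have ih := enc_eq v
    have e : enc (x :: v) = cst x.2 * 65536 ^ cpos x.1 + enc v := by
      simp only [enc, Int.add_def, Int.mul_def, Int.ofNat_eq_natCast, Nat.pow_eq, Nat.cast_pow,
        Nat.cast_ofNat]
    rw [e, ih]
    simp only [fpos, add_mul, Finset.sum_add_distrib]
    have h3 : ∑ n ∈ Finset.range 512, (if cpos x.1 = n then cst x.2 else 0) * (65536 : ℤ) ^ n =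
        cst x.2 * 65536 ^ cpos x.1 := by
      rw [Finset.sum_eq_single (cpos x.1)]
      · rw [if_pos rfl]
      · intro b _ hb
        rw [if_neg (Ne.symm hb), zero_mul]
      · intro h
        exact absurd (Finset.mem_range.2 (cpos_lt x.1)) h
    rw [h3]

theorem digits_zero (B : ℤ) (hB : 0 < B) : ∀ (n : ℕ) (f : ℕ → ℤ), (∀ k, |f k| < B) →
    ∑ k ∈ Finset.range n, f k * B ^ k = 0 → ∀ k < n, f k = 0
  | 0, _, _, _, k, hk => absurd hk (Nat.not_lt_zero k)
  | n + 1, f, hf, hs, k, hk => by
    rw [Finset.sum_range_succ'] at hs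
    have h1 : ∑ k ∈ Finset.range n, f (k + 1) * B ^ (k + 1) =
        B * ∑ k ∈ Finset.range n, f (k + 1) * B ^ k := by
      rw [Finset.mul_sum]
      exact Finset.sum_congr rfl fun k _ => by ring
    rw [h1] at hs
    have h0 : f 0 = 0 := by
      have hd : B ∣ f 0 := by
        refine ⟨-∑ k ∈ Finset.range n, f (k + 1) * B ^ k, ?_⟩
        linear_combination hs
      exact Int.eq_zero_of_abs_lt_dvd hd (hf 0)
    have h2 : ∑ k ∈ Finset.range n, f (k + 1) * B ^ k = 0 := by
      rw [h0] at hs
      have : B * ∑ k ∈ Finset.range n, f (k + 1) * B ^ k = 0 := by linear_combination hs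
      exact (mul_eq_zero.1 this).resolve_left hB.ne'
    cases k with
    | zero => exact h0
    | succ k =>
      exact digits_zero B hB n (fun k => f (k + 1)) (fun k => hf (k + 1)) h2 k (by omega)

theorem sem_eq_fpos (q : ℂ) (i : Tri) : ∀ v : SV Tri, allCst v = true →
    sem q v i = (fpos v (cpos i) : ℂ)
  | [], _ => by simp [sem, fpos]
  | x :: v, h => by
    simp only [allCst, Bool.and_eq_true] at h
    have ih := sem_eq_fpos q i v h.2
    simp only [sem, fpos, ih]
    push_cast
    congr 1
    by_cases hx : x.1 = i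
    · rw [if_pos hx, if_pos (by rw [hx]), ev_isCst q _ h.1]
    · rw [if_neg hx, if_neg fun hc => hx (cpos_inj hc)]

theorem sem_eq_zero_of_fastZ (q : ℂ) (v : SV Tri) (h : fastZ v = true) (i : Tri) :
    sem q v i = 0 := by
  simp only [fastZ, Bool.and_eq_true, decide_eq_true_eq, Nat.ble_eq] at h
  obtain ⟨hc, he, hb⟩ := h
  rw [sem_eq_fpos q i v hc]
  rw [enc_eq] at he
  have hlt : ∀ k, |fpos v k| < (65536 : ℤ) := by
    intro k
    have h1 := fpos_le k v
    have h2 : (bnd v : ℤ) ≤ 65535 := by exact_mod_cast hb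
    linarith
  have := digits_zero 65536 (by norm_num) 512 (fpos v) hlt he (cpos i) (cpos_lt i)
  rw [this]
  simp

/-- Fast test for equality of sparse vectors with constant entries. -/
def feqv (v w : SV Tri) : Bool := fastZ (v ++ scal [-1] w)

theorem sem_eq_of_feqv (q : ℂ) (v w : SV Tri) (h : feqv v w = true) (i : Tri) :
    sem q v i = sem q w i := by
  have h1 := sem_eq_zero_of_fastZ q _ h i
  rw [sem_append, sem_scal] at h1
  simp only [ev] at h1
  push_cast at h1
  linear_combination h1

end Pool.Agent.H19.QCube
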