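import Pool.Agent.H19.QCube.Quantum

/-!
# The adjoint module over `U_q(sl₃)`: simplicity, braiding, invariant tensors
-/

set_option autoImplicit false

namespace Pool.Agent.H19.QCube

open Matrix Kronecker

variable {q : ℝ}

theorem mE0_mulVec (hq : 0 < q) (u : Fin 8 → ℂ) :
    mE q 0 *ᵥ u = actE0 ((q : ℂ) + (q : ℂ)⁻¹) u := by
  have hq0 : (q : ℂ) ≠ 0 := by exact_mod_cast hq.ne'
  ext a
  fin_cases a <;>
  · simp [mE, mulVec, dotProduct, Fin.sum_univ_eight, mat, sem, colE, ev,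
      actE0]
    try field_simp
    try ring

theorem mE1_mulVec (hq : 0 < q) (u : Fin 8 → ℂ) :
    mE q 1 *ᵥ u = actE1 ((q : ℂ) + (q : ℂ)⁻¹) u := by
  have hq0 : (q : ℂ) ≠ 0 := by exact_mod_cast hq.ne'
  ext a
  fin_cases a <;>
  · simp [mE, mulVec, dotProduct, Fin.sum_univ_eight, mat, sem, colE, ev,
      actE1]
    try field_simp
    try ring

theorem mF0_mulVec (hq : 0 < q) (u : Fin 8 → ℂ) :
    mF q 0 *ᵥ u = actF0 ((q : ℂ) + (q : ℂ)⁻¹) u := by
  have hq0 : (q : ℂ) ≠ 0 := by exact_mod_cast hq.ne'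
  ext a
  fin_cases a <;>
  · simp [mF, mulVec, dotProduct, Fin.sum_univ_eight, mat, sem, colF, ev,
      actF0]
    try field_simp
    try ring

theorem mF1_mulVec (hq : 0 < q) (u : Fin 8 → ℂ) :
    mF q 1 *ᵥ u = actF1 ((q : ℂ) + (q : ℂ)⁻¹) u := by
  have hq0 : (q : ℂ) ≠ 0 := by exact_mod_cast hq.ne'
  ext a
  fin_cases a <;>
  · simp [mF, mulVec, dotProduct, Fin.sum_univ_eight, mat, sem, colF, ev,
      actF1]
    try field_simp
    try ring

theorem two_q_ne (hq : 0 < q) : ((q : ℂ) + (q : ℂ)⁻¹) ≠ 0 := by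
  have h : q + q⁻¹ ≠ 0 := by positivity
  exact_mod_cast h

theorem three_q_ne (hq : 0 < q) :
    ((q : ℂ) + (q : ℂ)⁻¹) * ((q : ℂ) + (q : ℂ)⁻¹) - 1 ≠ 0 := by
  have h : (q + q⁻¹) * (q + q⁻¹) - 1 ≠ 0 := by
    have h1 : q * q⁻¹ = 1 := mul_inv_cancel₀ hq.ne'
    have h2 : 0 < q ^ 2 + q⁻¹ ^ 2 := by positivity
    nlinarith
  exact_mod_cast h

theorem adj_highest (hq : 0 < q) (hq1 : q ≠ 1) :
    (adj q hq hq1).IsHighest ![1, 1] (bas 0) := by
  intro i
  fin_cases i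
  · constructor
    · change mE q 0 *ᵥ bas 0 = 0
      rw [mE0_mulVec hq]
      ext a; fin_cases a <;> simp [actE0, bas]
    · change mK q 0 *ᵥ bas 0 = _
      ext a
      rw [mK, mulVec_diagonal]
      fin_cases a <;> simp [bas, wtD]
  · constructor
    · change mE q 1 *ᵥ bas 0 = 0
      rw [mE1_mulVec hq]
      ext a; fin_cases a <;> simp [actE1, bas]
    · change mK q 1 *ᵥ bas 0 = _
      ext a
      rw [mK, mulVec_diagonal]
      fin_cases a <;> simp [bas, wtD]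

theorem adj_simple (hq : 0 < q) (hq1 : q ≠ 1) : (adj q hq hq1).IsSimpleHW ![1, 1] := by
  refine ⟨⟨bas 0, ?_, adj_highest hq hq1⟩, ?_⟩
  · intro h
    have := congrFun h 0
    simp [bas] at this
  · intro U hU
    refine simple_aux ((q : ℂ) + (q : ℂ)⁻¹) (two_q_ne hq) (three_q_ne hq) U ?_ ?_ ?_ ?_
    · intro u hu
      have := (hU 0 u hu).1
      change mE q 0 *ᵥ u ∈ U at this
      rwa [mE0_mulVec hq] at this
    · intro u hu
      have := (hU 1 u hu).1
      change mE q 1 *ᵥ u ∈ U at this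
      rwa [mE1_mulVec hq] at this
    · intro u hu
      have := (hU 0 u hu).2.1
      change mF q 0 *ᵥ u ∈ U at this
      rwa [mF0_mulVec hq] at this
    · intro u hu
      have := (hU 1 u hu).2.1
      change mF q 1 *ᵥ u ∈ U at this
      rwa [mF1_mulVec hq] at this

/-! ### The braiding -/

/-- The braiding of the adjoint module. -/
noncomputable def mR (q : ℝ) : Matrix (Fin 8 × Fin 8) (Fin 8 × Fin 8) ℂ :=
  ((q : ℂ) ^ 6)⁻¹ • mat (q : ℂ) colR

theorem adj_E2 (hq : 0 < q) (hq1 : q ≠ 1) (i : Fin 2) :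
    (adj q hq hq1).E2 i = ((q : ℂ) ^ 3)⁻¹ • mat (q : ℂ) (colE2 i) := by
  have hq0 : (q : ℂ) ≠ 0 := by exact_mod_cast hq.ne'
  change mE q i ⊗ₖ mK q i + 1 ⊗ₖ mE q i = _
  have h : mat (q : ℂ) (colE2 i) = mat (q : ℂ) (colE i) ⊗ₖ mat (q : ℂ) (colK i) +
      ((q : ℂ) ^ 2) • ((1 : Matrix (Fin 8) (Fin 8) ℂ) ⊗ₖ mat (q : ℂ) (colE i)) := by
    rw [← mat_one (q : ℂ), mat_kron, mat_kron, ← ev_mon, mat_smul, mat_add]
    rfl
  rw [h, mK_eq hq, mE, smul_kronecker, kronecker_smul, kronecker_smul, smul_add, smul_smul,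
    smul_smul]
  congr 2
  · field_simp
  · field_simp

theorem adj_F2 (hq : 0 < q) (hq1 : q ≠ 1) (i : Fin 2) :
    (adj q hq hq1).F2 i = ((q : ℂ) ^ 3)⁻¹ • mat (q : ℂ) (colF2 i) := by
  have hq0 : (q : ℂ) ≠ 0 := by exact_mod_cast hq.ne'
  change mF q i ⊗ₖ 1 + mKi q i ⊗ₖ mF q i = _
  have h : mat (q : ℂ) (colF2 i) =
      ((q : ℂ) ^ 2) • (mat (q : ℂ) (colF i) ⊗ₖ (1 : Matrix (Fin 8) (Fin 8) ℂ)) +
      mat (q : ℂ) (colKi i) ⊗ₖ mat (q : ℂ) (colF i) := by
    rw [← mat_one (q : ℂ), mat_kron, mat_kron, ← ev_mon, mat_smul, mat_add]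
    rfl
  rw [h, mKi_eq hq, mF, smul_kronecker, kronecker_smul, smul_kronecker, smul_add, smul_smul,
    smul_smul]
  congr 2
  · field_simp
  · field_simp

theorem adj_K2 (hq : 0 < q) (hq1 : q ≠ 1) (i : Fin 2) :
    (adj q hq hq1).K2 i = ((q : ℂ) ^ 4)⁻¹ • mat (q : ℂ) (colK2 i) := by
  have hq0 : (q : ℂ) ≠ 0 := by exact_mod_cast hq.ne'
  change mK q i ⊗ₖ mK q i = _
  have h : mat (q : ℂ) (colK2 i) = mat (q : ℂ) (colK i) ⊗ₖ mat (q : ℂ) (colK i) := by
    rw [mat_kron]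
    rfl
  rw [h, mK_eq hq, smul_kronecker, kronecker_smul, smul_smul]
  congr 1
  field_simp

theorem adj_E3 (hq : 0 < q) (hq1 : q ≠ 1) (i : Fin 2) :
    (adj q hq hq1).E3 i = ((q : ℂ) ^ 5)⁻¹ • mat (q : ℂ) (colE3 i) := by
  have hq0 : (q : ℂ) ≠ 0 := by exact_mod_cast hq.ne'
  change mE q i ⊗ₖ (adj q hq hq1).K2 i + 1 ⊗ₖ (adj q hq hq1).E2 i = _
  have h : mat (q : ℂ) (colE3 i) = mat (q : ℂ) (colE i) ⊗ₖ mat (q : ℂ) (colK2 i) +
      ((q : ℂ) ^ 2) • ((1 : Matrix (Fin 8) (Fin 8) ℂ) ⊗ₖ mat (q : ℂ) (colE2 i)) := by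
    rw [← mat_one (q : ℂ), mat_kron, mat_kron, ← ev_mon, mat_smul, mat_add]
    rfl
  rw [h, adj_K2, adj_E2, mE, smul_kronecker, kronecker_smul, kronecker_smul, smul_add, smul_smul,
    smul_smul]
  congr 2
  · field_simp
  · field_simp

theorem adj_K3 (hq : 0 < q) (hq1 : q ≠ 1) (i : Fin 2) :
    (adj q hq hq1).K3 i = ((q : ℂ) ^ 6)⁻¹ • mat (q : ℂ) (colK3 i) := by
  have hq0 : (q : ℂ) ≠ 0 := by exact_mod_cast hq.ne'
  change mK q i ⊗ₖ (adj q hq hq1).K2 i = _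
  have h : mat (q : ℂ) (colK3 i) = mat (q : ℂ) (colK i) ⊗ₖ mat (q : ℂ) (colK2 i) := by
    rw [mat_kron]
    rfl
  rw [h, adj_K2, mK_eq hq, smul_kronecker, kronecker_smul, smul_smul]
  congr 1
  field_simp

theorem commute_aux (M N : Fin 8 × Fin 8 → SV (Fin 8 × Fin 8)) (x y z : ℂ)
    (h : ∀ a b : Fin 8, eqv (app M (N (a, b))) (app N (M (a, b))) = true) :
    (x • mat z M) * (y • mat z N) = (y • mat z N) * (x • mat z M) := by
  have h1 : mat z M * mat z N = mat z N * mat z M := by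
    rw [mat_mul, mat_mul]
    exact mat_ext _ _ _ fun p => h p.1 p.2
  simp only [smul_mul_assoc, mul_smul_comm, h1, smul_smul, mul_comm x y]

theorem highest_eq (hq : 0 < q) (hq1 : q ≠ 1) (v : Fin 8 → ℂ)
    (hv : (adj q hq hq1).IsHighest ![1, 1] v) : v = v 0 • bas 0 := by
  have hinj : ∀ m : ℤ, q ^ m = q ^ (1 : ℤ) → m = 1 := fun m h => zpow_right_injective₀ hq hq1 h
  have hz : ∀ (i : Fin 2) (b : Fin 8), wtD b i ≠ 1 → v b = 0 := by
    intro i b hb
    have h := congrFun (hv i).2 b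
    change (mK q i *ᵥ v) b = _ at h
    rw [mK, mulVec_diagonal] at h
    have h1 : (![1, 1] : Fin 2 → ℤ) i = 1 := by fin_cases i <;> rfl
    rw [h1] at h
    simp only [Pi.smul_apply, smul_eq_mul] at h
    by_contra hne
    have h2 := mul_right_cancel₀ hne h
    exact hb (hinj _ (by exact_mod_cast h2))
  ext b
  fin_cases b
  · simp [bas]
  · simpa [bas] using hz 0 1 (by decide)
  · simpa [bas] using hz 0 2 (by decide)
  · simpa [bas] using hz 0 3 (by decide)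
  · simpa [bas] using hz 0 4 (by decide)
  · simpa [bas] using hz 0 5 (by decide)
  · simpa [bas] using hz 1 6 (by decide)
  · simpa [bas] using hz 0 7 (by decide)

theorem wtD_range2 : ∀ b : Fin 8, 0 ≤ 6 + wtD b 0 + wtD b 1 := by decide +kernel

theorem adj_braiding (hq : 0 < q) (hq1 : q ≠ 1) :
    (adj q hq hq1).IsBraiding ![1, 1] (mR q) where
  commE i := by rw [adj_E2, mR]; exact commute_aux _ _ _ _ _ (check_RE i)
  commF i := by rw [adj_F2, mR]; exact commute_aux _ _ _ _ _ (check_RF i)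
  commK i := by rw [adj_K2, mR]; exact commute_aux _ _ _ _ _ (check_RK i)
  norm v hv b := by
    have hq0 : (q : ℂ) ≠ 0 := by exact_mod_cast hq.ne'
    rw [highest_eq hq hq1 v hv]
    have h1 : (fun p : Fin 8 × Fin 8 => (v 0 • bas 0) p.1 * (if p.2 = b then (1 : ℂ) else 0)) =
        v 0 • sem (q : ℂ) [((0, b), [1])] := by
      ext ⟨x, y⟩
      simp only [Pi.smul_apply, smul_eq_mul, bas, sem, ev, Prod.mk.injEq]
      by_cases hx : x = 0 <;> by_cases hy : y = b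
      · subst hx hy; simp
      · have : ¬ b = y := fun h => hy h.symm
        simp [hx, hy, this]
      · have : ¬ (0 : Fin 8) = x := fun h => hx h.symm
        simp [hx, this]
      · have : ¬ (0 : Fin 8) = x := fun h => hx h.symm
        simp [hx, this]
    rw [h1, mR, mulVec_smul, smul_mulVec, mat_mulVec]
    have h2 : sem (q : ℂ) (app colR [((0, b), [1])]) =
        sem (q : ℂ) [((b, 0), mon (6 + wtD b 0 + wtD b 1).toNat)] := by
      ext x
      have h3 := sem_eq_of_eqv (q : ℂ) _ _ (check_Rnorm b) x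
      simp only [app, List.append_nil, sem_scal, ev] at h3 ⊢
      rw [← h3]; push_cast; ring
    rw [h2]
    have h4 : (adj q hq hq1).wt b = wtD b := rfl
    have h5 : form ![1, 1] (wtD b) = ((wtD b 0 + wtD b 1 : ℤ) : ℝ) := by
      simp only [form]
      have e0 : (![1, 1] : Fin 2 → ℤ) 0 = 1 := rfl
      have e1 : (![1, 1] : Fin 2 → ℤ) 1 = 1 := rfl
      rw [e0, e1]
      push_cast
      ring
    rw [h4, h5, Real.rpow_intCast]
    have h6 : ((6 + wtD b 0 + wtD b 1).toNat : ℤ) = 6 + (wtD b 0 + wtD b 1) := by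
      rw [Int.toNat_of_nonneg (wtD_range2 b)]; ring
    have h7 : (q : ℂ) ^ (6 + wtD b 0 + wtD b 1).toNat =
        (q : ℂ) ^ 6 * (q : ℂ) ^ (wtD b 0 + wtD b 1) := by
      rw [← zpow_natCast, h6, zpow_add₀ hq0]; norm_cast
    ext ⟨x, y⟩
    simp only [Pi.smul_apply, smul_eq_mul, bas, sem, ev_mon, Prod.mk.injEq, h7]
    push_cast
    by_cases hx : x = b <;> by_cases hy : y = 0
    · subst hx hy; simp; field_simp
    · have : ¬ 0 = y := fun h => hy h.symm
      simp [hx, hy, this]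
    · have : ¬ b = x := fun h => hx h.symm
      simp [hx, this]
    · have : ¬ b = x := fun h => hx h.symm
      simp [hx, this]

end Pool.Agent.H19.QCube
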