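import Pool.Agent.H19.QCube.Quantum2

/-!
# The trivial module occurs in `S_q³V` and in `Λ_q³V`, `V` the adjoint module
-/

set_option autoImplicit false

namespace Pool.Agent.H19.QCube

open Matrix Kronecker

variable {q : ℝ}

theorem sem_slice12 (z : ℂ) (a b c : Fin 8) : ∀ t : SV (Fin 8 × Fin 8 × Fin 8),
    sem z (slice12 c t) (a, b) = sem z t (a, b, c)
  | [] => rfl
  | x :: t => by
    have ih := sem_slice12 z a b c t
    obtain ⟨⟨x1, x2, x3⟩, p⟩ := x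
    by_cases h : x3 = c
    · subst h
      simp only [slice12, if_true, sem, ih, Prod.mk.injEq, and_true]
    · simp only [slice12, h, if_false, sem, ih, Prod.mk.injEq, and_false, zero_add]

theorem sem_slice23 (z : ℂ) (a : Fin 8) (r : Fin 8 × Fin 8) : ∀ t : SV (Fin 8 × Fin 8 × Fin 8),
    sem z (slice23 a t) r = sem z t (a, r)
  | [] => rfl
  | x :: t => by
    have ih := sem_slice23 z a r t
    obtain ⟨⟨x1, x2⟩, p⟩ := x
    by_cases h : x1 = a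
    · subst h
      simp only [slice23, if_true, sem, ih, Prod.mk.injEq, true_and]
    · simp only [slice23, h, if_false, sem, ih, Prod.mk.injEq, false_and, zero_add]

theorem eigen_aux (hq : 0 < q) (s : SV (Fin 8 × Fin 8)) (p : Poly) (r : ℝ)
    (h : eqv (app colR s) (scal p s) = true) (hr : ev (q : ℂ) p = (q : ℂ) ^ 6 * (r : ℂ)) :
    mR q *ᵥ sem (q : ℂ) s = (r : ℂ) • sem (q : ℂ) s := by
  have hq0 : (q : ℂ) ≠ 0 := by exact_mod_cast hq.ne'
  rw [mR, smul_mulVec, mat_mulVec]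
  ext x
  have h1 := sem_eq_of_eqv (q : ℂ) _ _ h x
  rw [sem_scal, hr] at h1
  simp only [Pi.smul_apply, smul_eq_mul, h1]
  field_simp

theorem mem_cube_aux (S : Submodule ℂ (Fin 8 × Fin 8 → ℂ)) (t : SV (Fin 8 × Fin 8 × Fin 8))
    (h12 : ∀ c, sem (q : ℂ) (slice12 c t) ∈ S) (h23 : ∀ a, sem (q : ℂ) (slice23 a t) ∈ S) :
    sem (q : ℂ) t ∈ cube S := by
  constructor
  · intro c
    convert h12 c using 1
    ext ⟨a, b⟩
    rw [sem_slice12]
  · intro a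
    convert h23 a using 1
    ext r
    rw [sem_slice23]

theorem tS_mem_cube (hq : 0 < q) : sem (q : ℂ) tS ∈ cube (symSq (mR q)) := by
  have hq0 : (q : ℂ) ≠ 0 := by exact_mod_cast hq.ne'
  have hpos : (0 : ℝ) < (q ^ 3)⁻¹ := by positivity
  have hr : ev (q : ℂ) (mon 3) = (q : ℂ) ^ 6 * (((q ^ 3)⁻¹ : ℝ) : ℂ) := by
    rw [ev_mon]; push_cast; field_simp
  refine mem_cube_aux _ _ (fun c => ?_) (fun a => ?_)
  · exact Submodule.subset_span ⟨(q ^ 3)⁻¹, hpos, eigen_aux hq _ _ _ (check_tS_12 c) hr⟩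
  · exact Submodule.subset_span ⟨(q ^ 3)⁻¹, hpos, eigen_aux hq _ _ _ (check_tS_23 a) hr⟩

theorem tA_mem_cube (hq : 0 < q) : sem (q : ℂ) tA ∈ cube (extSq (mR q)) := by
  have hq0 : (q : ℂ) ≠ 0 := by exact_mod_cast hq.ne'
  have hneg : -(q ^ 3)⁻¹ < (0 : ℝ) := by
    have : (0 : ℝ) < (q ^ 3)⁻¹ := by positivity
    linarith
  have hr : ev (q : ℂ) [0, 0, 0, -1] = (q : ℂ) ^ 6 * ((-(q ^ 3)⁻¹ : ℝ) : ℂ) := by
    simp only [ev]; push_cast; field_simp; ring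
  refine mem_cube_aux _ _ (fun c => ?_) (fun a => ?_)
  · exact Submodule.subset_span ⟨-(q ^ 3)⁻¹, hneg, eigen_aux hq _ _ _ (check_tA_12 c) hr⟩
  · exact Submodule.subset_span ⟨-(q ^ 3)⁻¹, hneg, eigen_aux hq _ _ _ (check_tA_23 a) hr⟩

theorem highest_aux (hq : 0 < q) (hq1 : q ≠ 1) (t : SV (Fin 8 × Fin 8 × Fin 8))
    (hE : ∀ i : Fin 2, isZ (app (colE3 i) t) = true)
    (hK : ∀ i : Fin 2, eqv (app (colK3 i) t) (scal (mon 6) t) = true) (i : Fin 2) :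
    (adj q hq hq1).E3 i *ᵥ sem (q : ℂ) t = 0 ∧
    (adj q hq hq1).K3 i *ᵥ sem (q : ℂ) t =
        ((q ^ ((0 : Fin 2 → ℕ) i) : ℝ) : ℂ) • sem (q : ℂ) t := by
  have hq0 : (q : ℂ) ≠ 0 := by exact_mod_cast hq.ne'
  constructor
  · rw [adj_E3, smul_mulVec, mat_mulVec]
    have : sem (q : ℂ) (app (colE3 i) t) = 0 := by
      ext x
      exact sem_eq_zero_of_isZ _ _ (hE i) x
    rw [this, smul_zero]
  · rw [adj_K3, smul_mulVec, mat_mulVec]
    ext x
    have h1 := sem_eq_of_eqv (q : ℂ) _ _ (hK i) x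
    rw [sem_scal, ev_mon] at h1
    simp only [Pi.smul_apply, smul_eq_mul, h1, Pi.zero_apply, pow_zero]
    push_cast
    field_simp

theorem cls_pos (hq : 0 < q) (hq1 : q ≠ 1) (U : Submodule ℂ (Fin 8 × Fin 8 × Fin 8 → ℂ))
    (t : SV (Fin 8 × Fin 8 × Fin 8)) (x : Fin 8 × Fin 8 × Fin 8) (hx : sem (q : ℂ) t x ≠ 0)
    (hU : sem (q : ℂ) t ∈ U)
    (hE : ∀ i : Fin 2, isZ (app (colE3 i) t) = true)
    (hK : ∀ i : Fin 2, eqv (app (colK3 i) t) (scal (mon 6) t) = true) :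
    0 < (adj q hq hq1).cls U 0 := by
  unfold QModule.cls
  rw [Module.finrank_pos_iff]
  refine ⟨⟨⟨sem (q : ℂ) t, hU, highest_aux hq hq1 t hE hK⟩, 0, ?_⟩⟩
  intro h
  apply hx
  have := congrArg Subtype.val h
  exact congrFun this x

theorem symCube_pos (hq : 0 < q) (hq1 : q ≠ 1) :
    0 < (adj q hq hq1).cls (cube (symSq (mR q))) 0 := by
  refine cls_pos hq hq1 _ tS (7, 3, 0) ?_ (tS_mem_cube hq) check_tS_E check_tS_K
  rw [sem_eq_ev_coef, check_tS_ne]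
  have h : ((1 + q + q ^ 2 : ℝ) : ℂ) ≠ 0 := by
    have : 1 + q + q ^ 2 ≠ 0 := by positivity
    exact_mod_cast this
  intro h0
  apply h
  simp only [ev] at h0
  push_cast at h0 ⊢
  linear_combination h0

theorem extCube_pos (hq : 0 < q) (hq1 : q ≠ 1) :
    0 < (adj q hq hq1).cls (cube (extSq (mR q))) 0 := by
  refine cls_pos hq hq1 _ tA (7, 4, 0) ?_ (tA_mem_cube hq) check_tA_E check_tA_K
  rw [sem_eq_ev_coef, check_tA_ne]
  have h : ((1 - q + q ^ 2 : ℝ) : ℂ) ≠ 0 := by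
    have : 1 - q + q ^ 2 ≠ 0 := by nlinarith [sq_nonneg (q - 1)]
    exact_mod_cast this
  intro h0
  apply h
  simp only [ev] at h0
  push_cast at h0 ⊢
  linear_combination h0

end Pool.Agent.H19.QCube
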