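import Pool.Agent.H19.QCube.Quantum2

/-!
# Uniqueness of the braiding of the adjoint module
-/

set_option autoImplicit false

namespace Pool.Agent.H19.QCube

open Matrix Kronecker

variable {q : ℝ}

/-- The tensor `u ⊗ w`. -/
def tv (u w : Fin 8 → ℂ) : Fin 8 × Fin 8 → ℂ := fun p => u p.1 * w p.2

theorem kron_tv (A B : Matrix (Fin 8) (Fin 8) ℂ) (u w : Fin 8 → ℂ) :
    (A ⊗ₖ B) *ᵥ tv u w = tv (A *ᵥ u) (B *ᵥ w) := by
  ext ⟨a, b⟩
  simp only [mulVec, dotProduct, tv, kroneckerMap_apply, Fintype.sum_prod_type,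
    Finset.sum_mul_sum]
  exact Finset.sum_congr rfl fun x _ => Finset.sum_congr rfl fun y _ => by ring

theorem tv_smul_left (c : ℂ) (u w : Fin 8 → ℂ) : tv (c • u) w = c • tv u w := by
  ext p
  simp only [tv, Pi.smul_apply, smul_eq_mul]
  ring

/-- `D` kills `u ⊗ V`. -/
def Kills (D : Matrix (Fin 8 × Fin 8) (Fin 8 × Fin 8) ℂ) (u : Fin 8 → ℂ) : Prop :=
  ∀ w, D *ᵥ tv u w = 0

theorem kills_step (hq : 0 < q) (hq1 : q ≠ 1) (D : Matrix (Fin 8 × Fin 8) (Fin 8 × Fin 8) ℂ)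
    (hD : ∀ i, D * (adj q hq hq1).F2 i = (adj q hq hq1).F2 i * D) (i : Fin 2)
    (u u' : Fin 8 → ℂ) (c : ℂ) (hu' : mF q i *ᵥ u = u') (hc : mKi q i *ᵥ u = c • u)
    (h : Kills D u) : Kills D u' := by
  intro w
  have h1 : (adj q hq hq1).F2 i *ᵥ tv u w = tv u' w + c • tv u (mF q i *ᵥ w) := by
    change (mF q i ⊗ₖ 1 + mKi q i ⊗ₖ mF q i) *ᵥ tv u w = _
    rw [add_mulVec, kron_tv, kron_tv, one_mulVec, hu', hc, tv_smul_left]
  have h2 : D *ᵥ ((adj q hq hq1).F2 i *ᵥ tv u w) = 0 := by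
    rw [mulVec_mulVec, hD, ← mulVec_mulVec, h w, mulVec_zero]
  rw [h1, mulVec_add, mulVec_smul, h, smul_zero, add_zero] at h2
  exact h2

theorem mKi_bas (i : Fin 2) (k : Fin 8) :
    mKi q i *ᵥ bas k = (((q ^ (-wtD k i) : ℝ)) : ℂ) • bas k := by
  ext a
  rw [mKi, mulVec_diagonal]
  simp only [Pi.smul_apply, smul_eq_mul, bas]
  by_cases h : a = k
  · subst h; simp
  · simp [h]

theorem braiding_unique (hq : 0 < q) (hq1 : q ≠ 1)
    (R : Matrix (Fin 8 × Fin 8) (Fin 8 × Fin 8) ℂ)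
    (hR : (adj q hq hq1).IsBraiding ![1, 1] R) : R = mR q := by
  have hR' := adj_braiding hq hq1
  set D := R - mR q with hDdef
  have hD : ∀ i, D * (adj q hq hq1).F2 i = (adj q hq hq1).F2 i * D := by
    intro i
    rw [hDdef, sub_mul, mul_sub, hR.commF, hR'.commF]
  have k0 : Kills D (bas 0) := by
    intro w
    have h1 : ∀ b : Fin 8, D *ᵥ tv (bas 0) (bas b) = 0 := by
      intro b
      have e1 := hR.norm (bas 0) (adj_highest hq hq1) b
      have e2 := hR'.norm (bas 0) (adj_highest hq hq1) b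
      have e3 : tv (bas 0) (bas b) =
          fun p : Fin 8 × Fin 8 => bas 0 p.1 * (if p.2 = b then 1 else 0) := rfl
      rw [hDdef, sub_mulVec, e3, e1, e2, sub_self]
    have h2 : tv (bas 0) w = ∑ b, w b • tv (bas 0) (bas b) := by
      ext ⟨x, y⟩
      simp only [Finset.sum_apply, Pi.smul_apply, smul_eq_mul, tv, bas]
      rw [Finset.sum_eq_single y]
      · simp
      · intro b _ hb
        simp [Ne.symm hb]
      · intro h; exact absurd (Finset.mem_univ _) h
    rw [h2, mulVec_sum]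
    refine Finset.sum_eq_zero fun b _ => ?_
    rw [mulVec_smul, h1, smul_zero]
  have k2 : Kills D (bas 2) := kills_step hq hq1 D hD 0 (bas 0) _ _
    (by rw [mF0_mulVec hq]; ext i; fin_cases i <;> simp [bas, actF0]) (mKi_bas 0 0) k0
  have k1 : Kills D (bas 1) := kills_step hq hq1 D hD 1 (bas 0) _ _
    (by rw [mF1_mulVec hq]; ext i; fin_cases i <;> simp [bas, actF1]) (mKi_bas 1 0) k0
  have k3 : Kills D (bas 3) := kills_step hq hq1 D hD 0 (bas 1) _ _
    (by rw [mF0_mulVec hq]; ext i; fin_cases i <;> simp [bas, actF0]) (mKi_bas 0 1) k1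
  have k4 : Kills D (bas 4) := kills_step hq hq1 D hD 1 (bas 2) _ _
    (by rw [mF1_mulVec hq]; ext i; fin_cases i <;> simp [bas, actF1]) (mKi_bas 1 2) k2
  have k5 : Kills D (bas 5) := kills_step hq hq1 D hD 0 (bas 4) _ _
    (by rw [mF0_mulVec hq]; ext i; fin_cases i <;> simp [bas, actF0]) (mKi_bas 0 4) k4
  have k6 : Kills D (bas 6) := kills_step hq hq1 D hD 1 (bas 3) _ _
    (by rw [mF1_mulVec hq]; ext i; fin_cases i <;> simp [bas, actF1]) (mKi_bas 1 3) k3
  have k7 : Kills D (bas 7) := kills_step hq hq1 D hD 0 (bas 6) _ _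
    (by rw [mF0_mulVec hq]; ext i; fin_cases i <;> simp [bas, actF0]) (mKi_bas 0 6) k6
  have hall : ∀ a, Kills D (bas a) := by
    intro a
    fin_cases a
    exacts [k0, k1, k2, k3, k4, k5, k6, k7]
  have hD0 : D = 0 := by
    ext p ⟨a, b⟩
    have h := congrFun (hall a (bas b)) p
    have e : tv (bas a) (bas b) = Pi.single (a, b) 1 := by
      ext ⟨x, y⟩
      simp only [tv, bas, Pi.single_apply, Prod.mk.injEq]
      by_cases hx : x = a <;> by_cases hy : y = b <;> simp [hx, hy]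
    rw [e, mulVec_single_one, Matrix.col_apply] at h
    rw [h]
    rfl
  rw [hDdef, sub_eq_zero] at hD0
  exact hD0

end Pool.Agent.H19.QCube
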